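import Pool.Agent.H.MP_0447ec_lc.RF.CoreA
import Pool.Agent.H.MP_0447ec_lc.LV.Robust
import Pool.Agent.H.MP_0447ec_lc.LV.SubTime

/-!
# From lines with extension axioms and additional rules to an extended Frege proof
-/

namespace Pool.Agent.H.MP_0447ec_lc.PS

open Fm Pool.Agent.H.MP_0447ec_lc.PT

/-- In a proof of `A` the extension axioms `q ↔ φ`, `(q, φ)` in `ax`, may be introduced in this
order. -/
def ExtOk (A : Fm) (ax : List (Nm × Fm)) : Prop :=
  ax.Pairwise (fun p p' => p'.1 ∉ p.2.vars ∧ p'.1 ≠ p.1) ∧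
  ∀ p ∈ ax, p.1 ∉ p.2.vars ∧ p.1 ∉ A.vars

theorem XG_sound {F : List Rule} (hF : IsFrege F) :
    ∀ r ∈ GG F ++ XR, ∀ v : Nm → Prop, (∀ P ∈ r.prem, P.Eval v) → r.concl.Eval v := by
  intro r hr
  rcases List.mem_append.1 hr with hr | hr
  · exact GG_sound hF r hr
  · exact XR_sound r hr

private theorem Nar_win {L : List Nm} {b : ℕ} (h : L.length ≤ b) (C : Fm) : InWindow L b 0 C := by
  intro x _ hx
  rwa [List.drop_zero, List.take_of_length_le h]

/-- The extension axioms alone. -/
private theorem Nar_ext {F : List Rule} {A : Fm} {b : ℕ} (ax : List (Nm × Fm)) (h : ExtOk A ax)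
    (hb : ax.length ≤ b) :
    NarrowDeriv F A b (ax.map (fun p => Fm.iff (var p.1) p.2)) (ax.map Prod.fst) := by
  induction ax using List.reverseRecOn with
  | nil => exact NarrowDeriv.nil
  | append_singleton l p ih =>
    obtain ⟨h1, h2⟩ := h
    rw [List.pairwise_append] at h1
    rw [List.length_append, List.length_singleton] at hb
    rw [List.map_append, List.map_append, List.map_cons, List.map_nil, List.map_cons, List.map_nil]
    have h3 := h2 p (by simp)
    refine NarrowDeriv.ext 0 (ih ⟨h1.1, fun q hq => h2 q (List.mem_append_left _ hq)⟩ (by omega))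
      h3.1 ?_ h3.2 (Nar_win (by simpa using hb) _)
    intro C hC hq
    obtain ⟨p', hp', rfl⟩ := List.mem_map.1 hC
    have h4 := h1.2.2 p' hp' p (by simp)
    simp only [Fm.iff, Fm.vars, Set.mem_union, Set.mem_singleton_iff] at hq
    rcases hq with (hq | hq) | (hq | hq)
    · exact h4.2 hq
    · exact h4.1 hq
    · exact h4.1 hq
    · exact h4.2 hq

/-- Extended Frege lines after the axioms. -/
private theorem Nar_lines {F : List Rule} {A : Fm} {b : ℕ} {Es : List Fm} {L : List Nm}
    (hE : NarrowDeriv F A b Es L) (hL : L.length ≤ b) {τ : List Fm}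
    (h : Deriv (fun σ B => RuleStep F σ B ∨ B ∈ Es) τ) :
    NarrowDeriv F A b (Es ++ τ.filter (fun C => !decide (C ∈ Es))) L := by
  induction h with
  | nil => simpa using hE
  | @snoc σ B _ h2 ih =>
    rw [List.filter_append]
    by_cases hB : B ∈ Es
    · have e : [B].filter (fun C => !decide (C ∈ Es)) = [] := by simp [hB]
      rw [e, List.append_nil]
      exact ih
    · have e : [B].filter (fun C => !decide (C ∈ Es)) = [B] := by simp [hB]
      rw [e, ← List.append_assoc]
      refine NarrowDeriv.rule 0 σ ih (fun C hC => ⟨?_, Nar_win hL C⟩) (Nar_win hL B)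
        (h2.resolve_right hB)
      by_cases hCE : C ∈ Es
      · exact List.mem_append_left _ hCE
      · exact List.mem_append_right _ (List.mem_filter.2 ⟨hC, by simp [hCE]⟩)

private theorem Nar_deriv {step : List Fm → Fm → Prop} (l : List Fm)
    (h : ∀ C ∈ l, ∀ σ, step σ C) : Deriv step l := by
  induction l using List.reverseRecOn with
  | nil => exact Deriv.nil
  | append_singleton l C ih =>
    exact Deriv.snoc (ih fun D hD => h D (List.mem_append_left _ hD)) (h C (by simp) l)

theorem narrow_of_lines {F : List Rule} (hF : IsFrege F) :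
    ∃ h : List Fm × List Fm → List Fm, Poly h ∧
      ∀ (A : Fm) (ax : List (Nm × Fm)) (π : List Fm), ExtOk A ax →
        Just (RuleStep (GG F ++ XR)) (ax.map (fun p => Fm.iff (var p.1) p.2)) π →
        A ∈ π →
        NarrowProof F A ax.length (h (ax.map (fun p => Fm.iff (var p.1) p.2), π ++ [A])) := by
  obtain ⟨h0, hh0, hh0'⟩ := robust hF (XG_sound hF)
  refine ⟨fun x => x.1 ++ (h0 (cutAt (lastF x.2) (app x.1 x.2))).filter
    (fun C => !decide (C ∈ x.1)), ?_, ?_⟩
  · have h1 : Poly (fun x : List Fm × List Fm => h0 (cutAt (lastF x.2) (app x.1 x.2))) :=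
      Poly.comp hh0 (by fun_prop)
    have h2 : Poly (fun x : List Fm × List Fm =>
        (h0 (cutAt (lastF x.2) (app x.1 x.2))).filter (fun C => !decide (C ∈ x.1))) :=
      Poly.filter (f := fun (x : List Fm × List Fm) (C : Fm) => !decide (C ∈ x.1))
        (by fun_prop) h1
    exact Poly.append Poly.fst h2
  · intro A ax π hax hπ hA
    obtain ⟨Es, hEs⟩ : ∃ Es, Es = ax.map (fun p => Fm.iff (var p.1) p.2) := ⟨_, rfl⟩
    rw [← hEs] at hπ ⊢
    have hAE : A ∉ Es := by
      intro h
      rw [hEs] at h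
      obtain ⟨p, hp, rfl⟩ := List.mem_map.1 h
      exact (hax.2 p hp).2 (by simp [Fm.iff, Fm.vars])
    have hl : lastF (π ++ [A]) = A := lastF_eq (by simp)
    show NarrowProof F A ax.length (Es ++ (h0 (cutAt (lastF (π ++ [A])) (app Es (π ++ [A])))).filter
      (fun C => !decide (C ∈ Es)))
    rw [hl]
    have hm : Mono (fun σ B => RuleStep (GG F ++ XR) σ B ∨ B ∈ Es) := by
      rintro σ σ' C hσ (h | h)
      · exact Or.inl (mono_ruleStep _ σ σ' C hσ h)
      · exact Or.inr h
    have d0 : Deriv (fun σ B => RuleStep (GG F ++ XR) σ B ∨ B ∈ Es) Es :=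
      Nar_deriv Es fun C hC σ => Or.inr hC
    have j : Just (fun σ B => RuleStep (GG F ++ XR) σ B ∨ B ∈ Es) Es (π ++ [A]) :=
      Just.append (hπ.imp_step (fun _ _ h => Or.inl h))
        ⟨Or.inl (List.mem_append_right _ hA), trivial⟩
    obtain ⟨d1, d2⟩ := deriv_cutAt (B := A) (deriv_app hm d0 j) (mem_app.2 (Or.inr (by simp)))
    obtain ⟨r1, r2, -⟩ := hh0' (fun _ B => B ∈ Es) (fun _ _ _ _ h => h) _ A d1 d2
    generalize h0 (cutAt A (app Es (π ++ [A]))) = τ at r1 r2
    have e1 := Nar_ext (F := F) (A := A) ax hax le_rfl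
    rw [← hEs] at e1
    refine ⟨⟨ax.map Prod.fst, Nar_lines e1 (by simp) r1⟩, ?_⟩
    obtain ⟨τ', rfl⟩ : ∃ τ', τ = τ' ++ [A] := by
      have hne : τ ≠ [] := by
        rintro rfl
        simp at r2
      refine ⟨τ.dropLast, ?_⟩
      have h3 : τ.getLast hne = A := by
        rw [List.getLast?_eq_some_getLast hne] at r2
        simpa using r2
      rw [← h3]
      exact (List.dropLast_append_getLast hne).symm
    rw [List.filter_append]
    have e : [A].filter (fun C => !decide (C ∈ Es)) = [A] := by simp [hAE]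
    rw [e, ← List.append_assoc]
    simp

end Pool.Agent.H.MP_0447ec_lc.PS
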