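import Pool.Agent.H.MP_0447ec_lc.RF.CoreC
import Pool.Agent.H.MP_0447ec_lc.RF.Nar
import Pool.Agent.H.MP_0447ec_lc.OH.Defs

/-!
# Names, the extension axioms and the blocks
-/

namespace Pool.Agent.H.MP_0447ec_lc.PS

open Fm

/-! ### Names -/

theorem nam_cons (i : ℕ) (l : List ℕ) :
    nam (i :: l) = List.replicate i true ++ false :: nam l := by
  simp [nam]

theorem rep_inj : ∀ {a b : ℕ} {w w' : Nm}, List.replicate a true ++ false :: w =
    List.replicate b true ++ false :: w' → a = b ∧ w = w' := by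
  intro a
  induction a with
  | zero =>
    intro b w w' h
    cases b with
    | zero => simpa using h
    | succ b => simp [List.replicate_succ] at h
  | succ a ih =>
    intro b w w' h
    cases b with
    | zero => simp [List.replicate_succ] at h
    | succ b =>
      simp only [List.replicate_succ, List.cons_append, List.cons.injEq, true_and] at h
      obtain ⟨h1, h2⟩ := ih h
      exact ⟨by rw [h1], h2⟩

theorem nam_inj : ∀ {l l' : List ℕ}, nam l = nam l' → l = l' := by
  intro l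
  induction l with
  | nil =>
    intro l' h
    cases l' with
    | nil => rfl
    | cons i l' =>
      rw [nam_cons] at h
      have := congrArg List.length h
      simp [nam] at this
  | cons i l ih =>
    intro l' h
    cases l' with
    | nil =>
      rw [nam_cons] at h
      have := congrArg List.length h
      simp [nam] at this
    | cons i' l' =>
      rw [nam_cons, nam_cons] at h
      obtain ⟨h1, h2⟩ := rep_inj h
      rw [h1, ih h2]

theorem nam_ne_nil (i : ℕ) (l : List ℕ) : nam (i :: l) ≠ [] := by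
  rw [nam_cons]
  simp

theorem nam_inj_iff {l l' : List ℕ} : nam l = nam l' ↔ l = l' := ⟨nam_inj, fun h => h ▸ rfl⟩

/-! ### Variables that are not extension variables -/

/-- Only variables with a name `[]` or with first index at most `3` occur. -/
def Lo (A : Fm) : Prop := ∀ x ∈ A.vars, x = [] ∨ ∃ (i : ℕ) (l : List ℕ), i ≤ 3 ∧ x = nam (i :: l)

theorem Lo.neg {A : Fm} (h : Lo A) : Lo (neg A) := h

theorem Lo.and {A B : Fm} (hA : Lo A) (hB : Lo B) : Lo (Fm.and A B) := by
  rintro x (hx | hx)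
  · exact hA x hx
  · exact hB x hx

theorem Lo.or {A B : Fm} (hA : Lo A) (hB : Lo B) : Lo (Fm.or A B) := by
  rintro x (hx | hx)
  · exact hA x hx
  · exact hB x hx

theorem Lo.imp {A B : Fm} (hA : Lo A) (hB : Lo B) : Lo (Fm.imp A B) := by
  rintro x (hx | hx)
  · exact hA x hx
  · exact hB x hx

theorem Lo.nil : Lo (var []) := by
  intro x hx
  exact Or.inl hx

theorem Lo.pv {i : ℕ} {l : List ℕ} (h : i ≤ 3) : Lo (pv (i :: l)) := by
  intro x hx
  exact Or.inr ⟨i, l, h, hx⟩

theorem Lo.andL {Γ : List Fm} (h : ∀ A ∈ Γ, Lo A) : Lo (andL Γ) := by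
  induction Γ with
  | nil => exact Lo.nil.imp Lo.nil
  | cons A Γ ih => exact (h A (by simp)).and (ih fun B hB => h B (List.mem_cons_of_mem _ hB))

theorem Lo.orL {Γ : List Fm} (h : ∀ A ∈ Γ, Lo A) : Lo (orL Γ) := by
  induction Γ with
  | nil => exact (Lo.nil.imp Lo.nil).neg
  | cons A Γ ih => exact (h A (by simp)).or (ih fun B hB => h B (List.mem_cons_of_mem _ hB))

namespace Refl

theorem lo_X (i : ℕ) : Lo (X i) := Lo.pv (by omega)
theorem lo_C (a l : ℕ) : Lo (C a l) := Lo.pv (by omega)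
theorem lo_E (k l : ℕ) : Lo (E k l) := Lo.pv (by omega)
theorem lo_D (t l : ℕ) : Lo (D t l) := Lo.pv (by omega)

theorem lo_inL (l : ℕ) : Lo (inL l) := by
  unfold inL
  split
  · exact lo_X _
  · exact (lo_X _).neg

theorem lo_sat (n a : ℕ) : Lo (sat n a) := by
  refine Lo.orL ?_
  intro A hA
  obtain ⟨l, -, rfl⟩ := List.mem_map.1 hA
  exact (lo_C _ _).and (lo_inL _)

theorem lo_ne (n k : ℕ) : Lo (ne n k) := by
  refine Lo.orL ?_
  intro A hA
  obtain ⟨l, -, rfl⟩ := List.mem_map.1 hA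
  exact lo_E _ _

theorem lo_rA (n t a : ℕ) : Lo (rA n t a) := by
  refine Lo.andL ?_
  intro A hA
  obtain ⟨l, -, rfl⟩ := List.mem_map.1 hA
  exact (lo_C _ _).imp (lo_D _ _)

theorem lo_rE (n t k : ℕ) : Lo (rE n t k) := by
  refine (lo_D _ _).and (Lo.andL ?_)
  intro A hA
  obtain ⟨l, -, rfl⟩ := List.mem_map.1 hA
  exact (lo_E _ _).imp (lo_D _ _)

theorem lo_rO (n t k l : ℕ) : Lo (rO n t k l) := (lo_E _ _).and ((lo_D _ _).and (lo_D _ _))

theorem lo_rR (n K t u w v : ℕ) : Lo (rR n K t u w v) := by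
  refine (Lo.andL ?_).and (Lo.andL ?_)
  · intro A hA
    obtain ⟨l, -, rfl⟩ := List.mem_map.1 hA
    exact (lo_D _ _).imp (lo_D _ _)
  · intro A hA
    obtain ⟨l, -, rfl⟩ := List.mem_map.1 hA
    exact (lo_D _ _).imp (lo_D _ _)

theorem lo_reasons {n m K t : ℕ} {A : Fm} (h : A ∈ reasons n m K t) : Lo A := by
  unfold reasons at h
  rw [List.mem_append, List.mem_append] at h
  rcases h with h | h | h
  · obtain ⟨a, -, rfl⟩ := List.mem_map.1 h
    exact lo_rA _ _ _
  · obtain ⟨k, -, h⟩ := List.mem_flatMap.1 h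
    rcases List.mem_cons.1 h with rfl | h
    · exact lo_rE _ _ _
    · obtain ⟨l, -, rfl⟩ := List.mem_map.1 h
      exact lo_rO _ _ _ _
  · obtain ⟨u, -, h⟩ := List.mem_flatMap.1 h
    obtain ⟨w, -, h⟩ := List.mem_flatMap.1 h
    obtain ⟨v, -, rfl⟩ := List.mem_map.1 h
    exact lo_rR _ _ _ _ _ _

theorem lo_hyps {n m K T : ℕ} {A : Fm} (h : A ∈ hyps n m K T) : Lo A := by
  unfold hyps at h
  rw [List.mem_append, List.mem_append] at h
  rcases h with h | h | h
  · obtain ⟨a, -, rfl⟩ := List.mem_map.1 h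
    exact lo_sat _ _
  · obtain ⟨k, -, rfl⟩ := List.mem_map.1 h
    exact lo_ne _ _
  · obtain ⟨t, -, rfl⟩ := List.mem_map.1 h
    exact Lo.orL fun A hA => lo_reasons hA

end Refl

theorem lo_Sound (n m K T : ℕ) : Lo (Sound n m K T) := by
  refine (Lo.andL fun A hA => Refl.lo_hyps hA).imp (Lo.orL ?_)
  intro A hA
  obtain ⟨l, -, rfl⟩ := List.mem_map.1 hA
  exact Refl.lo_D _ _

/-! ### The blocks -/

namespace Refl

/-- The block number `k`: the set `E_k` is not empty, and the literal number `k` does not belong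
to the line `T`. -/
def blk (n T k : ℕ) : Fm :=
  Fm.and (dj (nam [2, k, 0]) ((List.range (2 * (n + k))).map (fun l => E k l))) (neg (D T k))

/-- The blocks. -/
def blks (n K T : ℕ) : List Fm := (List.range K).map (fun k => blk n T k)

theorem vars_blk {n T k : ℕ} {x : Nm} (h : x ∈ (blk n T k).vars) :
    (∃ l, x = nam [2, k, l]) ∨ x = nam [3, T, k] := by
  rcases h with h | h
  · rw [vars_dj] at h
    rcases h with h | ⟨A, hA, h⟩
    · exact Or.inl ⟨0, h⟩
    · obtain ⟨l, -, rfl⟩ := List.mem_map.1 hA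
      exact Or.inl ⟨l, h⟩
  · exact Or.inr h

theorem blk_disjoint {n T k k' : ℕ} (hk : k ≠ k') {x : Nm} (h : x ∈ (blk n T k).vars) :
    x ∉ (blk n T k').vars := by
  intro h'
  rcases vars_blk h with ⟨l, rfl⟩ | rfl <;> rcases vars_blk h' with ⟨l', e⟩ | e <;>
    simp [nam_inj_iff, hk] at e

theorem nonConst_blk (n T k : ℕ) : NonConst (blk n T k) := by
  refine ⟨?_, ?_⟩
  · rintro ⟨-, h⟩
    exact h trivial
  · rintro ⟨h, -⟩
    rw [eval_dj] at h
    obtain ⟨A, hA, h⟩ := h
    obtain ⟨l, -, rfl⟩ := List.mem_map.1 hA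
    exact h

theorem blocks_blks (n K T : ℕ) : Blocks (blks n K T) := by
  refine ⟨?_, ?_⟩
  · unfold blks
    rw [List.pairwise_map]
    refine List.Nodup.pairwise_of_forall_ne List.nodup_range ?_
    intro k _ k' _ hk x hx
    exact blk_disjoint hk hx
  · intro H hH
    obtain ⟨k, -, rfl⟩ := List.mem_map.1 hH
    exact nonConst_blk _ _ _

theorem lo_blk (n T k : ℕ) : Lo (blk n T k) := by
  intro x hx
  rcases vars_blk hx with ⟨l, rfl⟩ | rfl
  · exact Or.inr ⟨2, _, by omega, rfl⟩
  · exact Or.inr ⟨3, _, by omega, rfl⟩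

/-- The formula to which the theorem on blocks is applied. -/
def Star (n m K T : ℕ) : Fm := imps (blks n K T) (Sound n m K T)

theorem lo_Star (n m K T : ℕ) : Lo (Star n m K T) := by
  unfold Star
  have : ∀ Hs : List Fm, (∀ H ∈ Hs, Lo H) → Lo (imps Hs (Sound n m K T)) := by
    intro Hs
    induction Hs with
    | nil => intro _; exact lo_Sound _ _ _ _
    | cons H Hs ih =>
      intro h
      exact (h H (by simp)).imp (ih fun B hB => h B (List.mem_cons_of_mem _ hB))
  refine this _ ?_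
  intro H hH
  obtain ⟨k, -, rfl⟩ := List.mem_map.1 hH
  exact lo_blk _ _ _

/-! ### The extension axioms -/

/-- The extension axioms as pairs. -/
def axL (n K : ℕ) : List (Nm × Fm) := (List.range K).map (fun k => (nam [4, k], orL (ooL n k)))

theorem axL_eq (n K : ℕ) : (axL n K).map (fun p => Fm.iff (var p.1) p.2) = extA n K := by
  unfold axL extA
  rw [List.map_map]
  rfl

theorem vars_vr {n i : ℕ} {x : Nm} (h : x ∈ (vr n i).vars) :
    x = nam [0, i] ∨ (n ≤ i ∧ x = nam [4, i - n]) := by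
  unfold vr at h
  split at h
  · exact Or.inl h
  · exact Or.inr ⟨by omega, h⟩

theorem vars_vl {n l : ℕ} {x : Nm} (h : x ∈ (vl n l).vars) : x ∈ (vr n (l / 2)).vars := by
  unfold vl at h
  split at h <;> exact h

theorem vars_oo {n k : ℕ} {x : Nm} (h : x ∈ (orL (ooL n k)).vars) :
    (x = [] ∨ ∃ (i : ℕ) (l : List ℕ), i ≤ 3 ∧ x = nam (i :: l)) ∨ ∃ j < k, x = nam [4, j] := by
  rw [orL_eq, vars_dj] at h
  rcases h with h | ⟨A, hA, h⟩
  · exact Or.inl (Or.inl h)
  · obtain ⟨l, hl, rfl⟩ := List.mem_map.1 hA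
    rw [List.mem_range] at hl
    rcases h with h | h
    · exact Or.inl (lo_E _ _ _ h)
    · rcases vars_vr (vars_vl h) with h | ⟨h1, h⟩
      · exact Or.inl (Or.inr ⟨0, _, by omega, h⟩)
      · exact Or.inr ⟨l / 2 - n, by omega, h⟩

theorem not_lo {x : Nm} {j : ℕ} (h : x = [] ∨ ∃ (i : ℕ) (l : List ℕ), i ≤ 3 ∧ x = nam (i :: l)) :
    nam [4, j] ≠ x := by
  rintro rfl
  rcases h with h | ⟨i, l, hi, h⟩
  · exact nam_ne_nil _ _ h
  · have := nam_inj h
    rw [List.cons.injEq] at this
    omega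

theorem extOk (n m K T : ℕ) : ExtOk (Star n m K T) (axL n K) := by
  have key : ∀ k k', k ≤ k' → nam [4, k'] ∉ (orL (ooL n k)).vars := by
    intro k k' hk h
    rcases vars_oo h with h | ⟨j, hj, h⟩
    · exact not_lo h rfl
    · have := nam_inj h
      simp only [List.cons.injEq, and_true, true_and] at this
      omega
  refine ⟨?_, ?_⟩
  · unfold axL
    rw [List.pairwise_map]
    refine List.Pairwise.imp ?_ List.pairwise_lt_range
    intro k k' hk
    refine ⟨key k k' (by omega), ?_⟩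
    intro h
    have := nam_inj h
    simp only [List.cons.injEq, and_true, true_and] at this
    omega
  · intro p hp
    obtain ⟨k, -, rfl⟩ := List.mem_map.1 hp
    exact ⟨key k k le_rfl, fun h => not_lo (lo_Star _ _ _ _ _ h) rfl⟩

end Refl

end Pool.Agent.H.MP_0447ec_lc.PS
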