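import Pool.Agent.H.MP_0447ec_lc.LV.EnginePoly
import Pool.Agent.H.MP_0447ec_lc.LV.BwR

/-!
# A small calculus of disjunctions in a context
-/

namespace Pool.Agent.H.MP_0447ec_lc.PS

open Fm Pool.Agent.H.MP_0447ec_lc.PT

/-! ### Additional rules -/

/-- Additional basic rules: introduction of a disjunction under a hypothesis. -/
def RR : List Rule :=
  [⟨[imp v0 v1], imp v0 (Fm.or v1 v2)⟩,
   ⟨[imp v0 v2], imp v0 (Fm.or v1 v2)⟩,
   ⟨[imp v0 (neg v1), imp v0 (imp v2 v1)], imp v0 (neg v2)⟩,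
   ⟨[imp v0 (neg (neg v1))], imp v0 v1⟩,
   ⟨[imp (Fm.and v1 v0) v2], imp v0 (imp v1 v2)⟩,
   ⟨[imp v0 (Fm.or v1 v2), imp v0 (neg v1)], imp v0 v2⟩,
   ⟨[imp (Fm.and v0 v1) v2], imp v0 (imp v1 v2)⟩]

theorem RR_sound : ∀ r ∈ RR, ∀ v : Nm → Prop, (∀ P ∈ r.prem, P.Eval v) → r.concl.Eval v := by
  intro r hr v hv
  simp only [RR, List.mem_cons, List.not_mem_nil, or_false] at hr
  rcases hr with rfl | rfl | rfl | rfl | rfl | rfl | rfl <;>
    simp [Fm.Eval, v0, v1, v2] at hv ⊢ <;>
    tauto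

/-- The rules of `F`, the same rules with a hypothesis, the basic and the additional rules. -/
def GR (F : List Rule) : List Rule := GG F ++ RR

/-- The set of rules contains the basic and the additional rules. -/
structure Rich2 (G : List Rule) : Prop where
  rich : Rich G
  rr : ∀ r ∈ RR, r ∈ G

theorem GR_rich2 (F : List Rule) : Rich2 (GR F) :=
  ⟨fun r hr => List.mem_append_left _ (GG_rich F r hr), fun _ hr => List.mem_append_right _ hr⟩

theorem GR_sound {F : List Rule} (hF : IsFrege F) :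
    ∀ r ∈ GR F, ∀ v : Nm → Prop, (∀ P ∈ r.prem, P.Eval v) → r.concl.Eval v := by
  intro r hr
  rcases List.mem_append.1 hr with hr | hr
  · exact GG_sound hF r hr
  · exact RR_sound r hr

section steps

variable {G : List Rule} {π : List Fm} {H A B C : Fm}

theorem Rich2.step (hG : Rich2 G) (r : Rule) (hr : r ∈ RR) (X0 X1 X2 X3 X4 : Fm)
    (hp : ∀ P ∈ r.prem, P.subst (s5 X0 X1 X2 X3 X4) ∈ π)
    {D : Fm} (hD : r.concl.subst (s5 X0 X1 X2 X3 X4) = D) : RuleStep G π D :=
  ⟨r, hG.rr r hr, s5 X0 X1 X2 X3 X4, hp, hD⟩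

theorem Rich2.orL (hG : Rich2 G) (h : imp H A ∈ π) : RuleStep G π (imp H (Fm.or A B)) :=
  hG.step ⟨[imp v0 v1], imp v0 (Fm.or v1 v2)⟩ (by simp [RR]) H A B H H
    (by simpa [Fm.subst, v0, v1, v2, s5] using h) rfl

theorem Rich2.orR (hG : Rich2 G) (h : imp H B ∈ π) : RuleStep G π (imp H (Fm.or A B)) :=
  hG.step ⟨[imp v0 v2], imp v0 (Fm.or v1 v2)⟩ (by simp [RR]) H A B H H
    (by simpa [Fm.subst, v0, v1, v2, s5] using h) rfl

/-- From `H → ¬ A` and `H → (B → A)` to `H → ¬ B`. -/
theorem Rich2.mt (hG : Rich2 G) (h : imp H (neg A) ∈ π) (h2 : imp H (imp B A) ∈ π) :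
    RuleStep G π (imp H (neg B)) :=
  hG.step ⟨[imp v0 (neg v1), imp v0 (imp v2 v1)], imp v0 (neg v2)⟩ (by simp [RR]) H A B H H
    (by simpa [Fm.subst, v0, v1, v2, s5] using ⟨h, h2⟩) rfl

theorem Rich2.nnE (hG : Rich2 G) (h : imp H (neg (neg A)) ∈ π) : RuleStep G π (imp H A) :=
  hG.step ⟨[imp v0 (neg (neg v1))], imp v0 v1⟩ (by simp [RR]) H A H H H
    (by simpa [Fm.subst, v0, v1, v2, s5] using h) rfl

/-- From `H → (A ∨ B)` and `H → ¬ A` to `H → B`. -/
theorem Rich2.orE' (hG : Rich2 G) (h : imp H (Fm.or A B) ∈ π) (h2 : imp H (neg A) ∈ π) :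
    RuleStep G π (imp H B) :=
  hG.step ⟨[imp v0 (Fm.or v1 v2), imp v0 (neg v1)], imp v0 v2⟩ (by simp [RR]) H A B H H
    (by simpa [Fm.subst, v0, v1, v2, s5] using ⟨h, h2⟩) rfl

/-- From `(H ∧ A) → B` to `H → (A → B)`. -/
theorem Rich2.curry' (hG : Rich2 G) (h : imp (Fm.and H A) B ∈ π) :
    RuleStep G π (imp H (imp A B)) :=
  hG.step ⟨[imp (Fm.and v0 v1) v2], imp v0 (imp v1 v2)⟩ (by simp [RR]) H A B H H
    (by simpa [Fm.subst, v0, v1, v2, s5] using h) rfl

end steps

/-! ### Introduction of a disjunction -/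

/-- Lines that derive `imp H (dj d Xs)` from `imp H X`, where `X ∈ Xs`. -/
def djI (d : Nm) (H X : Fm) (Xs : List Fm) : List Fm :=
  ((sfx Xs).filter (fun Γ => decide (X ∈ Γ))).map (fun Γ => imp H (dj d Γ))

theorem djI_just {G : List Rule} (hG : Rich2 G) {d : Nm} {H X : Fm} {π : List Fm}
    (h : imp H X ∈ π) : ∀ {Xs : List Fm}, Just (RuleStep G) π (djI d H X Xs) ∧
      (X ∈ Xs → imp H (dj d Xs) ∈ djI d H X Xs) := by
  intro Xs
  induction Xs with
  | nil => exact ⟨by simp [djI, sfx, Just], by simp⟩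
  | cons Y Ys ih =>
    obtain ⟨j, m⟩ := ih
    have e : djI d H X (Y :: Ys) = djI d H X Ys ++
        (if X ∈ Y :: Ys then [imp H (dj d (Y :: Ys))] else []) := by
      unfold djI
      rw [sfx, List.filter_append, List.map_append]
      congr 1
      by_cases hX : X ∈ Y :: Ys
      · rw [if_pos hX]; simp [hX]
      · rw [if_neg hX]; simp [hX]
    rw [e]
    by_cases hX : X ∈ Y :: Ys
    · rw [if_pos hX]
      refine ⟨Just.append j ⟨Or.inr ?_, trivial⟩, by simp⟩
      rw [dj_cons]
      by_cases hXY : X ∈ Ys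
      · exact hG.orR (List.mem_append_right _ (m hXY))
      · have : X = Y := by
          rcases List.mem_cons.1 hX with h1 | h1
          · exact h1
          · exact absurd h1 hXY
        subst this
        exact hG.orL (List.mem_append_left _ h)
    · rw [if_neg hX, List.append_nil]
      exact ⟨j, fun h1 => absurd h1 hX⟩

/-! ### Elimination of a disjunction -/

/-- Lines that derive `imp H A` from `imp H (dj d Xs)` and `imp (and X H) A` for all `X ∈ Xs`. -/
def djE (d : Nm) (H A : Fm) (Xs : List Fm) : List Fm :=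
  Xs.map (fun X => imp H (imp X A)) ++ ((sfx Xs).map (fun Γ => imp H (imp (dj d Γ) A)) ++
    [imp H A])

theorem djE_just {G : List Rule} (hG : Rich2 G) {d : Nm} {H A : Fm} {Xs : List Fm}
    {π : List Fm} (h : ∀ X ∈ Xs, imp (Fm.and X H) A ∈ π) (hd : imp H (dj d Xs) ∈ π) :
    Just (RuleStep G) π (djE d H A Xs) ∧ imp H A ∈ djE d H A Xs := by
  refine ⟨?_, by simp [djE]⟩
  have j1 : ∀ (Ys : List Fm), (∀ X ∈ Ys, imp (Fm.and X H) A ∈ π) → ∀ π', (∀ C ∈ π, C ∈ π') →
      Just (RuleStep G) π' (Ys.map (fun X => imp H (imp X A))) := by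
    intro Ys
    induction Ys with
    | nil => intro _ _ _; trivial
    | cons X Ys ih =>
      intro h π' hπ'
      exact ⟨Or.inr (hG.rich.curry (hπ' _ (h X (by simp)))),
        ih (fun Y hY => h Y (List.mem_cons_of_mem _ hY)) _
          (fun C hC => List.mem_append_left _ (hπ' C hC))⟩
  have j2 : ∀ (Ys : List Fm) (π' : List Fm), (∀ X ∈ Ys, imp H (imp X A) ∈ π') →
      Just (RuleStep G) π' ((sfx Ys).map (fun Γ => imp H (imp (dj d Γ) A))) ∧
      imp H (imp (dj d Ys) A) ∈ (sfx Ys).map (fun Γ => imp H (imp (dj d Γ) A)) := by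
    intro Ys
    induction Ys with
    | nil =>
      intro π' _
      exact ⟨⟨Or.inr hG.rich.exfalso, trivial⟩, by simp [sfx]⟩
    | cons X Ys ih =>
      intro π' h
      obtain ⟨j, m⟩ := ih π' (fun Y hY => h Y (List.mem_cons_of_mem _ hY))
      simp only [sfx, List.map_append, List.map_cons, List.map_nil]
      refine ⟨Just.append j ⟨Or.inr ?_, trivial⟩, by simp⟩
      rw [dj_cons]
      exact hG.rich.orE (List.mem_append_left _ (h X (by simp))) (List.mem_append_right _ m)
  refine Just.append (j1 Xs h π (fun C hC => hC)) ?_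
  obtain ⟨j3, m3⟩ := j2 Xs (π ++ Xs.map (fun X => imp H (imp X A))) (by
    intro X hX
    exact List.mem_append_right _ (List.mem_map_of_mem (f := fun X => imp H (imp X A)) hX))
  refine Just.append j3 ⟨Or.inr ?_, trivial⟩
  exact hG.rich.mp (List.mem_append_left _ (List.mem_append_left _ hd))
    (List.mem_append_right _ m3)

/-! ### Change of the context -/

/-- Lines that derive `imp (and X H) A` from `imp H A`. -/
def upL (H X A : Fm) : List Fm :=
  [imp (Fm.and X H) (Fm.and X H), imp (Fm.and X H) H, imp (Fm.and X H) A]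

theorem upL_just {G : List Rule} (hG : Rich2 G) {H X A : Fm} {π : List Fm} (h : imp H A ∈ π) :
    Just (RuleStep G) π (upL H X A) ∧ imp (Fm.and X H) A ∈ upL H X A := by
  refine ⟨⟨Or.inr hG.rich.refl, Or.inr ?_, Or.inr ?_, trivial⟩, by simp [upL]⟩
  · exact hG.rich.right (by simp : imp (Fm.and X H) (Fm.and X H) ∈ _)
  · exact hG.rich.trans (A := H) (by simp) (by simp [h])

/-! ### Polynomial time -/

section

variable {α : Type} [Enc α]

@[fun_prop]
theorem Poly.djI {d : α → Nm} {H X : α → Fm} {Xs : α → List Fm} (hd : Poly d) (hH : Poly H)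
    (hX : Poly X) (hXs : Poly Xs) : Poly (fun a => djI (d a) (H a) (X a) (Xs a)) := by
  unfold PS.djI
  fun_prop

@[fun_prop]
theorem Poly.djE {d : α → Nm} {H A : α → Fm} {Xs : α → List Fm} (hd : Poly d) (hH : Poly H)
    (hA : Poly A) (hXs : Poly Xs) : Poly (fun a => djE (d a) (H a) (A a) (Xs a)) := by
  unfold PS.djE
  fun_prop

@[fun_prop]
theorem Poly.upL {H X A : α → Fm} (hH : Poly H) (hX : Poly X) (hA : Poly A) :
    Poly (fun a => upL (H a) (X a) (A a)) := by
  unfold PS.upL
  fun_prop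

end

/-! ### From lines with the rules `GR F` to narrow proofs in `F` -/

/-- The lines `q ↔ φ` for the pairs `(q, φ)` of a list. -/
def extLs (E : List (Nm × Fm)) : List Fm := E.map (fun e => Fm.iff (var e.1) e.2)

/-- The names of the list are different, and no name occurs in its own formula or in an earlier
one. -/
structure WfE (E : List (Nm × Fm)) : Prop where
  pw : E.Pairwise (fun e e' => e'.1 ∉ e.2.vars ∧ e.1 ≠ e'.1)
  self : ∀ e ∈ E, e.1 ∉ e.2.vars

theorem inWindow_all {L : List Nm} {b : ℕ} (h : L.length ≤ b) (C : Fm) : InWindow L b 0 C := by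
  intro x _ hx'
  rwa [List.drop_zero, List.take_of_length_le h]

theorem vars_iff' {q x : Nm} {φ : Fm} : x ∈ (Fm.iff (var q) φ).vars ↔ x = q ∨ x ∈ φ.vars := by
  simp only [Fm.iff, Fm.vars, Set.mem_union, Set.mem_singleton_iff]
  tauto

theorem narrow_extLs {F : List Rule} {A : Fm} {b : ℕ} {E : List (Nm × Fm)} (hE : WfE E)
    (hA : ∀ e ∈ E, e.1 ∉ A.vars) (hb : E.length ≤ b) :
    NarrowDeriv F A b (extLs E) (E.map Prod.fst) := by
  induction E using List.reverseRecOn with
  | nil => exact NarrowDeriv.nil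
  | append_singleton E e ih =>
    obtain ⟨h1, h2⟩ := hE
    rw [List.pairwise_append] at h1
    rw [List.length_append, List.length_singleton] at hb
    have h3 := ih ⟨h1.1, fun e' he' => h2 e' (List.mem_append_left _ he')⟩
      (fun e' he' => hA e' (List.mem_append_left _ he')) (by omega)
    have h4 : extLs (E ++ [e]) = extLs E ++ [Fm.iff (var e.1) e.2] := by simp [extLs]
    have h5 : (E ++ [e]).map Prod.fst = E.map Prod.fst ++ [e.1] := by simp
    rw [h4, h5]
    refine NarrowDeriv.ext 0 h3 (h2 e (by simp)) ?_ (hA e (by simp)) (inWindow_all ?_ _)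
    · intro C hC
      obtain ⟨e', he', rfl⟩ := List.mem_map.1 hC
      have h6 := h1.2.2 e' he' e (by simp)
      rw [vars_iff', not_or]
      exact ⟨fun h => h6.2 h.symm, h6.1⟩
    · rw [List.length_append, List.length_map, List.length_singleton]; exact hb

/-- Extension lines, followed by lines that are justified by the rules `GR F`, give an extended
Frege proof whose bandwidth is the number of the extension lines. -/
theorem narrow_of_just {F : List Rule} (hF : IsFrege F) :
    ∃ h : List (Nm × Fm) × List Fm × Fm → List Fm, Poly h ∧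
      ∀ (E : List (Nm × Fm)) (τ : List Fm) (A : Fm), WfE E → (∀ e ∈ E, e.1 ∉ A.vars) →
        Just (RuleStep (GR F)) (extLs E) τ → A ∈ τ →
        NarrowProof F A E.length (h (E, τ, A)) := by
  obtain ⟨h, hp, hh⟩ := robust_hyp hF (GR_sound hF)
  refine ⟨fun p => cutAt p.2.2 (app (extLs p.1) (h (extLs p.1, p.2.1))), ?_, ?_⟩
  · unfold extLs
    fun_prop
  · intro E τ A hE hA hj hm
    obtain ⟨j1, j2, -⟩ := hh (extLs E) τ hj
    have h1 := narrow_extLs (F := F) hE hA le_rfl
    have h2 : (E.map Prod.fst).length ≤ E.length := by rw [List.length_map]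
    have h3 := narrow_app (i := 0) (τ := h (extLs E, τ)) h1
      (fun C hC => ⟨hC, inWindow_all h2 C⟩) (fun C _ => inWindow_all h2 C) j1
    exact narrow_cutAt h3 (mem_app.2 (Or.inr (j2 A hm)))

end Pool.Agent.H.MP_0447ec_lc.PS
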