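import Mathlib

/-!
# Binary codes of lists of numbers
-/

namespace Pool.Agent.H.MP_0447ec_lc.PS

/-- Binary code of a list of numbers, each of them in unary. -/
def codeNums (l : List ℕ) : List Bool :=
  l.flatMap (fun i => true :: ((List.replicate i [true, false]).flatten ++ [false])) ++ [false]

end Pool.Agent.H.MP_0447ec_lc.PS
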