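import Pool.Agent.H.MP_0447ec_lc.RF.Rules

/-!
# Cases on a disjunction and introduction of a disjunction under a hypothesis
-/

namespace Pool.Agent.H.MP_0447ec_lc.PS

open Fm

variable {G : List Rule}

theorem Just.ofMem {step : List Fm → Fm → Prop} (hm : Mono step) :
    ∀ {σ π : List Fm}, (∀ C ∈ σ, C ∈ π ∨ step π C) → Just step π σ := by
  intro σ
  induction σ with
  | nil => intro _ _; trivial
  | cons C σ ih =>
    intro π h
    refine ⟨h C (by simp), ih (fun B hB => ?_)⟩
    rcases h B (List.mem_cons_of_mem _ hB) with h | h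
    · exact Or.inl (List.mem_append_left _ h)
    · exact Or.inr (hm _ _ _ (fun _ hC => List.mem_append_left _ hC) h)

/-- Lines for a case distinction under the hypothesis `H`. -/
def orel (H S : Fm) (Xs : List Fm) : List Fm := (sfx Xs).map (fun Γ => imp H (imp (orL Γ) S))

theorem orel_just (hG : Rich G) {H S : Fm} {Xs π : List Fm}
    (h : ∀ X ∈ Xs, imp H (imp X S) ∈ π) :
    Just (RuleStep G) π (orel H S Xs) ∧ imp H (imp (orL Xs) S) ∈ orel H S Xs := by
  unfold orel
  induction Xs generalizing π with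
  | nil => exact ⟨⟨Or.inr hG.exfalso, trivial⟩, by simp [sfx]⟩
  | cons X Ys ih =>
    obtain ⟨j, m⟩ := ih (π := π) (fun Y hY => h Y (List.mem_cons_of_mem _ hY))
    simp only [sfx, List.map_append, List.map_cons, List.map_nil]
    refine ⟨Just.append j ⟨Or.inr ?_, trivial⟩, by simp⟩
    exact hG.orE (List.mem_append_left _ (h X (by simp))) (List.mem_append_right _ m)

/-- Lines that introduce a disjunction. -/
def inj (H : Fm) (Xs : List Fm) : List Fm :=
  (sfx Xs).flatMap (fun Γ => Γ.map (fun X => imp H (imp X (orL Γ))))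

theorem mem_inj {H : Fm} : ∀ {Xs : List Fm} {X : Fm}, X ∈ Xs →
    imp H (imp X (orL Xs)) ∈ inj H Xs := by
  intro Xs X hX
  unfold inj
  rw [List.mem_flatMap]
  refine ⟨Xs, ?_, List.mem_map_of_mem (f := fun X => imp H (imp X (orL Xs))) hX⟩
  cases Xs with
  | nil => simp [sfx]
  | cons A Γ => simp [sfx]

theorem inj_just (hX : RichX G) (H : Fm) (Xs : List Fm) :
    ∀ π : List Fm, Just (RuleStep G) π (inj H Xs) := by
  induction Xs with
  | nil => intro π; simp [inj, sfx, Just]
  | cons A Γ ih =>
    intro π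
    have e : inj H (A :: Γ) = inj H Γ ++
        (A :: Γ).map (fun X => imp H (imp X (orL (A :: Γ)))) := by
      simp [inj, sfx]
    rw [e]
    refine Just.append (ih π) (Just.ofMem (mono_ruleStep G) ?_)
    intro C hC
    right
    rw [List.map_cons, List.mem_cons] at hC
    rcases hC with rfl | hC
    · exact hX.i1
    · obtain ⟨X, hX', rfl⟩ := List.mem_map.1 hC
      exact hX.i2 (List.mem_append_right _ (mem_inj hX'))

/-- Lines for the case in which the literals of a clause are copied: the members of `cs` are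
triples `(C, D, L)`. -/
def copyL (H S : Fm) (cs : List (Fm × Fm × Fm)) : List Fm :=
  cs.map (fun c => imp H (imp (Fm.and c.1 c.2.2) S)) ++
    orel H S (cs.map (fun c => Fm.and c.1 c.2.2))

theorem copyL_just (hG : Rich G) (hX : RichX G) {H S : Fm} {cs : List (Fm × Fm × Fm)}
    {π : List Fm}
    (h1 : ∀ c ∈ cs, imp H (imp c.1 c.2.1) ∈ π)
    (h2 : ∀ c ∈ cs, imp H (imp (Fm.and c.2.1 c.2.2) S) ∈ π) :
    Just (RuleStep G) π (copyL H S cs) ∧
    imp H (imp (orL (cs.map (fun c => Fm.and c.1 c.2.2))) S) ∈ copyL H S cs := by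
  obtain ⟨j, m⟩ := orel_just hG (H := H) (S := S)
    (Xs := cs.map (fun c => Fm.and c.1 c.2.2))
    (π := π ++ cs.map (fun c => imp H (imp (Fm.and c.1 c.2.2) S))) (by
      intro X hX'
      obtain ⟨c, hc, rfl⟩ := List.mem_map.1 hX'
      exact List.mem_append_right _
        (List.mem_map_of_mem (f := fun c : Fm × Fm × Fm =>
          imp H (imp (Fm.and c.1 c.2.2) S)) hc))
  refine ⟨Just.append (Just.ofMem (mono_ruleStep G) ?_) j, List.mem_append_right _ m⟩
  intro C hC
  obtain ⟨c, hc, rfl⟩ := List.mem_map.1 hC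
  exact Or.inr (hX.y1 (h1 c hc) (h2 c hc))

/-- Lines that show `S` under the additional hypothesis `R`; `Xs` is the list of the disjuncts
of `S`. -/
def caseW (H R S : Fm) (Xs body : List Fm) : List Fm :=
  projL (Fm.and R H) ++ (inj (Fm.and R H) Xs ++ (body ++ [imp (Fm.and R H) S, imp H (imp R S)]))

theorem caseW_just (hG : Rich G) (hX : RichX G) {H R S : Fm} {Xs body π : List Fm}
    (h : ∀ π', (∀ C ∈ π, C ∈ π') → (∀ Y ∈ ands R, imp (Fm.and R H) Y ∈ π') →
      (∀ Y ∈ ands H, imp (Fm.and R H) Y ∈ π') →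
      (∀ Y ∈ Xs, imp (Fm.and R H) (imp Y (orL Xs)) ∈ π') →
      Just (RuleStep G) π' (body ++ [imp (Fm.and R H) S])) :
    Just (RuleStep G) π (caseW H R S Xs body) ∧
    imp H (imp R S) ∈ caseW H R S Xs body := by
  refine ⟨?_, by simp [caseW]⟩
  unfold caseW
  refine Just.append (projL_just hG _ _) (Just.append (inj_just hX _ _ _) ?_)
  have e : body ++ [imp (Fm.and R H) S, imp H (imp R S)] =
      (body ++ [imp (Fm.and R H) S]) ++ [imp H (imp R S)] := by simp
  rw [e]
  refine Just.append (h _ ?_ ?_ ?_ ?_) ⟨Or.inr (hG.curry (by simp)), trivial⟩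
  · intro C hC
    exact List.mem_append_left _ (List.mem_append_left _ hC)
  · intro Y hY
    refine List.mem_append_left _ (List.mem_append_right _ (mem_projL ?_))
    simp [ands, hY]
  · intro Y hY
    refine List.mem_append_left _ (List.mem_append_right _ (mem_projL ?_))
    simp [ands, hY]
  · intro Y hY
    exact List.mem_append_right _ (mem_inj hY)

end Pool.Agent.H.MP_0447ec_lc.PS
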