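import Pool.Agent.H.MP_0447ec_lc.RF.Lines

/-!
# The cases of the soundness proof
-/

namespace Pool.Agent.H.MP_0447ec_lc.PS

open Fm

variable {G : List Rule}

namespace Refl

theorem ands_andL {Γ : List Fm} {A : Fm} (h : A ∈ Γ) : A ∈ ands (andL Γ) :=
  mem_ands_cj h (self_mem_ands A)

theorem vl_even (n v : ℕ) : vl n (2 * v) = vr n v := by
  unfold vl
  rw [if_pos (by omega), show 2 * v / 2 = v by omega]

theorem vl_odd (n v : ℕ) : vl n (2 * v + 1) = neg (vr n v) := by
  unfold vl
  rw [if_neg (by omega), show (2 * v + 1) / 2 = v by omega]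

theorem vr_def (n k : ℕ) : vr n (n + k) = Z k := by
  unfold vr
  rw [if_neg (by omega), show n + k - n = k by omega]

theorem vl_input {n l : ℕ} (h : l < 2 * n) : vl n l = inL l := by
  have h1 : l / 2 < n := by omega
  unfold vl inL vr
  rw [if_pos h1]

theorem linesA_just (hG : Rich G) (hX : RichX G) {H : Fm} {n K t a : ℕ} {π : List Fm}
    (hs : sat n a ∈ ands H) :
    Just (RuleStep G) π (linesA H n K t a) ∧
    imp H (imp (rA n t a) (Sat n K t)) ∈ linesA H n K t a := by
  unfold linesA
  refine caseW_just hG hX ?_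
  intro π' hπ' hR hH hS
  have h1 : ∀ l < 2 * n, imp (Fm.and (rA n t a) H) (imp (C a l) (D t l)) ∈ π' := by
    intro l hl
    refine hR _ (ands_andL ?_)
    exact List.mem_map_of_mem (f := fun l => imp (C a l) (D t l)) (List.mem_range.2 hl)
  have h2 : ∀ l < 2 * (n + K), imp (Fm.and (rA n t a) H)
      (imp (Fm.and (D t l) (vl n l)) (Sat n K t)) ∈ π' := by
    intro l hl
    exact hS _ (List.mem_map_of_mem (f := fun l => Fm.and (D t l) (vl n l))
      (List.mem_range.2 hl))
  obtain ⟨j, m⟩ := copyL_just hG hX (H := Fm.and (rA n t a) H) (S := Sat n K t)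
    (cs := (List.range (2 * n)).map (fun l => (C a l, D t l, vl n l))) (π := π') (by
      intro c hc
      obtain ⟨l, hl, rfl⟩ := List.mem_map.1 hc
      exact h1 l (List.mem_range.1 hl)) (by
      intro c hc
      obtain ⟨l, hl, rfl⟩ := List.mem_map.1 hc
      have := List.mem_range.1 hl
      exact h2 l (by omega))
  refine Just.append j ⟨Or.inr ?_, trivial⟩
  refine hG.mp (A := sat n a) (List.mem_append_left _ (hH _ hs)) (List.mem_append_right _ ?_)
  have e : sat n a = orL (((List.range (2 * n)).map (fun l => (C a l, D t l, vl n l))).map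
      (fun c => Fm.and c.1 c.2.2)) := by
    unfold sat
    rw [List.map_map]
    congr 1
    refine List.map_congr_left ?_
    intro l hl
    show Fm.and (C a l) (inL l) = Fm.and (C a l) (vl n l)
    rw [vl_input (List.mem_range.1 hl)]
  rw [e]
  exact m

theorem linesE_just (hG : Rich G) (hX : RichX G) {H : Fm} {n K t k : ℕ} {π : List Fm}
    (hk : k < K) (he : Fm.iff (Z k) (orL (ooL n k)) ∈ π) :
    Just (RuleStep G) π (linesE H n K t k) ∧
    imp H (imp (rE n t k) (Sat n K t)) ∈ linesE H n K t k := by
  unfold linesE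
  refine caseW_just hG hX ?_
  intro π' hπ' hR hH hS
  have h0 : imp (Fm.and (rE n t k) H) (D t (2 * (n + k) + 1)) ∈ π' := by
    refine hR _ ?_
    simp [rE, ands, self_mem_ands]
  have h1 : ∀ l < 2 * (n + k), imp (Fm.and (rE n t k) H) (imp (E k l) (D t l)) ∈ π' := by
    intro l hl
    refine hR _ ?_
    have := ands_andL (List.mem_map_of_mem (f := fun l => imp (E k l) (D t l))
      (List.mem_range.2 hl))
    unfold rE
    simp only [ands, List.mem_cons, List.mem_append]
    exact Or.inr (Or.inr this)
  have h2 : ∀ l < 2 * (n + K), imp (Fm.and (rE n t k) H)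
      (imp (Fm.and (D t l) (vl n l)) (Sat n K t)) ∈ π' := by
    intro l hl
    exact hS _ (List.mem_map_of_mem (f := fun l => Fm.and (D t l) (vl n l))
      (List.mem_range.2 hl))
  obtain ⟨j, m⟩ := copyL_just hG hX (H := Fm.and (rE n t k) H) (S := Sat n K t)
    (cs := (List.range (2 * (n + k))).map (fun l => (E k l, D t l, vl n l))) (π := π') (by
      intro c hc
      obtain ⟨l, hl, rfl⟩ := List.mem_map.1 hc
      exact h1 l (List.mem_range.1 hl)) (by
      intro c hc
      obtain ⟨l, hl, rfl⟩ := List.mem_map.1 hc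
      have := List.mem_range.1 hl
      exact h2 l (by omega))
  unfold bodyE
  rw [List.append_assoc]
  refine Just.append j ⟨Or.inr ?_, Or.inr ?_, trivial⟩
  · refine hX.y2 (D := D t (2 * (n + k) + 1)) (List.mem_append_left _ h0)
      (List.mem_append_left _ ?_)
    have := h2 (2 * (n + k) + 1) (by omega)
    rwa [vl_odd, vr_def] at this
  · refine hX.y3 (Z := Z k) (P := orL (ooL n k))
      (List.mem_append_left _ (List.mem_append_left _ (hπ' _ he))) ?_ (by simp)
    refine List.mem_append_left _ (List.mem_append_right _ ?_)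
    have e : ooL n k = ((List.range (2 * (n + k))).map (fun l => (E k l, D t l, vl n l))).map
        (fun c => Fm.and c.1 c.2.2) := by
      unfold ooL
      rw [List.map_map]
      rfl
    rw [e]
    exact m

theorem linesO_just (hG : Rich G) (hX : RichX G) {H : Fm} {n K t k l : ℕ} {π : List Fm}
    (hk : k < K) (hl : l < 2 * (n + k)) (he : Fm.iff (Z k) (orL (ooL n k)) ∈ π) :
    Just (RuleStep G) π (linesO H n K t k l) ∧
    imp H (imp (rO n t k l) (Sat n K t)) ∈ linesO H n K t k l := by
  unfold linesO
  refine caseW_just hG hX ?_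
  intro π' hπ' hR hH hS
  have h0 : imp (Fm.and (rO n t k l) H) (E k l) ∈ π' := by
    refine hR _ ?_
    simp [rO, ands, self_mem_ands]
  have h1 : imp (Fm.and (rO n t k l) H) (D t (2 * (n + k))) ∈ π' := by
    refine hR _ ?_
    simp [rO, ands, self_mem_ands]
  have h1' : imp (Fm.and (rO n t k l) H) (D t (flip l)) ∈ π' := by
    refine hR _ ?_
    simp [rO, ands, self_mem_ands]
  have h2 : ∀ j < 2 * (n + K), imp (Fm.and (rO n t k l) H)
      (imp (Fm.and (D t j) (vl n j)) (Sat n K t)) ∈ π' := by
    intro j hj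
    exact hS _ (List.mem_map_of_mem (f := fun j => Fm.and (D t j) (vl n j))
      (List.mem_range.2 hj))
  have hf : flip l < 2 * (n + K) := by
    unfold flip
    split <;> omega
  unfold bodyO
  rw [List.append_assoc]
  refine Just.append (inj_just hX _ _ _) ⟨Or.inr ?_, Or.inr ?_, Or.inr ?_, trivial⟩
  · exact hX.y2 (List.mem_append_left _ h1') (List.mem_append_left _ (h2 _ hf))
  · refine hX.y2 (D := D t (2 * (n + k))) (List.mem_append_left _ (List.mem_append_left _ h1))
      (List.mem_append_left _ (List.mem_append_left _ ?_))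
    have := h2 (2 * (n + k)) (by omega)
    rwa [vl_even, vr_def] at this
  · have m : imp (Fm.and (rO n t k l) H) (imp (Fm.and (E k l) (vl n l)) (orL (ooL n k))) ∈
        inj (Fm.and (rO n t k l) H) (ooL n k) :=
      mem_inj (List.mem_map_of_mem (f := fun l => Fm.and (E k l) (vl n l))
        (List.mem_range.2 hl))
    rcases Nat.mod_two_eq_zero_or_one l with h | h
    · have e1 : vl n l = vr n (l / 2) := by unfold vl; rw [if_pos h]
      have e0 : flip l = l + 1 := by unfold flip; rw [if_pos h]
      have e2 : vl n (flip l) = neg (vr n (l / 2)) := by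
        rw [e0]
        unfold vl
        rw [if_neg (by omega), show (l + 1) / 2 = l / 2 by omega]
      rw [e1] at m
      rw [e2]
      refine hX.y4e (Z := Z k) (O := orL (ooL n k)) (C := E k l) (W := vr n (l / 2)) ?_ ?_ ?_
        (by simp) (by simp)
      · simp [hπ' _ he]
      · simp [h0]
      · simp [m]
    · have e1 : vl n l = neg (vr n (l / 2)) := by unfold vl; rw [if_neg (by omega)]
      have e0 : flip l = l - 1 := by unfold flip; rw [if_neg (by omega)]
      have e2 : vl n (flip l) = vr n (l / 2) := by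
        rw [e0]
        unfold vl
        rw [if_pos (by omega), show (l - 1) / 2 = l / 2 by omega]
      rw [e1] at m
      rw [e2]
      refine hX.y4o (Z := Z k) (O := orL (ooL n k)) (C := E k l) (W := vr n (l / 2)) ?_ ?_ ?_
        (by simp) (by simp)
      · simp [hπ' _ he]
      · simp [h0]
      · simp [m]

theorem bodyH_just (hG : Rich G) {H : Fm} {n K u : ℕ} {N S : Fm} {π : List Fm}
    (h1 : imp H (Sat n K u) ∈ π ∨ RuleStep G π (imp H (Sat n K u)))
    (h2 : ∀ l < 2 * (n + K), RuleStep G π (imp H (imp (Fm.and (D u l) (vl n l)) (imp N S)))) :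
    Just (RuleStep G) π (bodyH H n K u N S) ∧ imp H (imp N S) ∈ bodyH H n K u N S := by
  refine ⟨?_, by simp [bodyH]⟩
  unfold bodyH
  refine ⟨h1, ?_⟩
  have j1 : Just (RuleStep G) (π ++ [imp H (Sat n K u)]) ((List.range (2 * (n + K))).map
      (fun l => imp H (imp (Fm.and (D u l) (vl n l)) (imp N S)))) := by
    refine Just.ofMem (mono_ruleStep G) ?_
    intro C hC
    obtain ⟨l, hl, rfl⟩ := List.mem_map.1 hC
    exact Or.inr (mono_ruleStep G _ _ _ (fun _ h => List.mem_append_left _ h)
      (h2 l (List.mem_range.1 hl)))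
  refine Just.append j1 ?_
  obtain ⟨j, m⟩ := orel_just hG (H := H) (S := imp N S) (Xs := satL n K u)
    (π := π ++ [imp H (Sat n K u)] ++ (List.range (2 * (n + K))).map
      (fun l => imp H (imp (Fm.and (D u l) (vl n l)) (imp N S)))) (by
      intro X hX
      obtain ⟨l, hl, rfl⟩ := List.mem_map.1 hX
      exact List.mem_append_right _ (List.mem_map_of_mem
        (f := fun l => imp H (imp (Fm.and (D u l) (vl n l)) (imp N S))) hl))
  refine Just.append j ⟨Or.inr ?_, trivial⟩
  exact hG.mp (A := Sat n K u) (by simp) (List.mem_append_right _ m)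

theorem linesR_just (hG : Rich G) (hX : RichX G) {H : Fm} {n K t u w v : ℕ} {π : List Fm}
    (hu : imp H (Sat n K u) ∈ π) (hw : imp H (Sat n K w) ∈ π) :
    Just (RuleStep G) π (linesR H n K t u w v) ∧
    imp H (imp (rR n K t u w v) (Sat n K t)) ∈ linesR H n K t u w v := by
  unfold linesR
  refine caseW_just hG hX ?_
  intro π' hπ' hR hH hS
  have hHH : imp (Fm.and (rR n K t u w v) H) H ∈ π' := hH _ (self_mem_ands H)
  have h1 : ∀ l < 2 * (n + K), l ≠ 2 * v →
      imp (Fm.and (rR n K t u w v) H) (imp (D u l) (D t l)) ∈ π' := by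
    intro l hl hl'
    refine hR _ ?_
    have h0 : l ∈ (List.range (2 * (n + K))).filter (fun l => l ≠ 2 * v) :=
      List.mem_filter.2 ⟨List.mem_range.2 hl, by simpa using hl'⟩
    have := ands_andL (List.mem_map_of_mem (f := fun l => imp (D u l) (D t l)) h0)
    unfold rR
    simp only [ands, List.mem_cons, List.mem_append]
    exact Or.inr (Or.inl this)
  have h1' : ∀ l < 2 * (n + K), l ≠ 2 * v + 1 →
      imp (Fm.and (rR n K t u w v) H) (imp (D w l) (D t l)) ∈ π' := by
    intro l hl hl'
    refine hR _ ?_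
    have h0 : l ∈ (List.range (2 * (n + K))).filter (fun l => l ≠ 2 * v + 1) :=
      List.mem_filter.2 ⟨List.mem_range.2 hl, by simpa using hl'⟩
    have := ands_andL (List.mem_map_of_mem (f := fun l => imp (D w l) (D t l)) h0)
    unfold rR
    simp only [ands, List.mem_cons, List.mem_append]
    exact Or.inr (Or.inr this)
  have h2 : ∀ l < 2 * (n + K), imp (Fm.and (rR n K t u w v) H)
      (imp (Fm.and (D t l) (vl n l)) (Sat n K t)) ∈ π' := by
    intro l hl
    exact hS _ (List.mem_map_of_mem (f := fun l => Fm.and (D t l) (vl n l))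
      (List.mem_range.2 hl))
  unfold bodyR
  rw [List.append_assoc]
  obtain ⟨j1, m1⟩ := bodyH_just hG (H := Fm.and (rR n K t u w v) H) (n := n) (K := K) (u := u)
    (N := neg (vr n v)) (S := Sat n K t) (π := π')
    (Or.inr (hG.trans hHH (hπ' _ hu))) (by
      intro l hl
      by_cases h : l = 2 * v
      · rw [h, vl_even]
        exact hX.y7p
      · exact hX.y6 (h1 l hl h) (h2 l hl))
  refine Just.append j1 ?_
  have hm : ∀ C ∈ π', C ∈ π' ++ bodyH (Fm.and (rR n K t u w v) H) n K u (neg (vr n v))
      (Sat n K t) := fun C hC => List.mem_append_left _ hC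
  obtain ⟨j2, m2⟩ := bodyH_just hG (H := Fm.and (rR n K t u w v) H) (n := n) (K := K) (u := w)
    (N := vr n v) (S := Sat n K t) (π := π' ++ bodyH (Fm.and (rR n K t u w v) H) n K u
      (neg (vr n v)) (Sat n K t))
    (Or.inr (hG.trans (hm _ hHH) (hm _ (hπ' _ hw)))) (by
      intro l hl
      by_cases h : l = 2 * v + 1
      · rw [h, vl_odd]
        exact hX.y7n
      · exact hX.y6 (hm _ (h1' l hl h)) (hm _ (h2 l hl)))
  refine Just.append j2 ⟨Or.inr ?_, trivial⟩
  exact hX.y8 (List.mem_append_left _ (List.mem_append_right _ m1))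
    (List.mem_append_right _ m2)

end Refl

end Pool.Agent.H.MP_0447ec_lc.PS
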