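import Pool.Agent.H.MP_0447ec_lc.RF.CoreB

/-!
# The soundness proof
-/

namespace Pool.Agent.H.MP_0447ec_lc.PS

open Fm

variable {G : List Rule}

namespace Refl

theorem linesT_just (hG : Rich G) (hX : RichX G) {H : Fm} {n m K t : ℕ} {π : List Fm}
    (hs : ∀ a < m, sat n a ∈ ands H) (hr : imp H (orL (reasons n m K t)) ∈ π)
    (he : ∀ k < K, Fm.iff (Z k) (orL (ooL n k)) ∈ π)
    (hS : ∀ u < t, imp H (Sat n K u) ∈ π) :
    Just (RuleStep G) π (linesT H n m K t) ∧ imp H (Sat n K t) ∈ linesT H n m K t := by
  refine ⟨?_, by simp [linesT]⟩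
  unfold linesT
  have hmono := mono_ruleStep G
  refine Just.append (Just.flatMap hmono _ _ _ ?_) ?_
  · intro a ha
    exact (linesA_just hG hX (hs a (List.mem_range.1 ha))).1
  refine Just.append (Just.flatMap hmono _ _ _ ?_) ?_
  · intro k hk
    rw [List.mem_range] at hk
    refine Just.append (linesE_just hG hX hk (List.mem_append_left _ (he k hk))).1
      (Just.flatMap hmono _ _ _ ?_)
    intro l hl
    exact (linesO_just hG hX hk (List.mem_range.1 hl) (List.mem_append_left _
      (List.mem_append_left _ (he k hk)))).1
  refine Just.append (Just.flatMap hmono _ _ _ ?_) ?_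
  · intro u hu
    refine Just.flatMap hmono _ _ _ ?_
    intro w hw
    refine Just.flatMap hmono _ _ _ ?_
    intro v _
    exact (linesR_just hG hX
      (List.mem_append_left _ (List.mem_append_left _ (hS u (List.mem_range.1 hu))))
      (List.mem_append_left _ (List.mem_append_left _ (hS w (List.mem_range.1 hw))))).1
  have key : ∀ X ∈ reasons n m K t, imp H (imp X (Sat n K t)) ∈
      (((π ++ (List.range m).flatMap (fun a => linesA H n K t a)) ++
        (List.range K).flatMap (fun k => linesE H n K t k ++
          (List.range (2 * (n + k))).flatMap (fun l => linesO H n K t k l))) ++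
        (List.range t).flatMap (fun u => (List.range t).flatMap (fun w =>
          (List.range (n + K)).flatMap (fun v => linesR H n K t u w v)))) := by
    intro X hX'
    unfold reasons at hX'
    rw [List.mem_append, List.mem_append] at hX'
    rcases hX' with h | h | h
    · obtain ⟨a, ha, rfl⟩ := List.mem_map.1 h
      refine List.mem_append_left _ (List.mem_append_left _ (List.mem_append_right _
        (List.mem_flatMap.2 ⟨a, ha, ?_⟩)))
      exact (linesA_just (π := []) hG hX (hs a (List.mem_range.1 ha))).2
    · obtain ⟨k, hk, h⟩ := List.mem_flatMap.1 h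
      refine List.mem_append_left _ (List.mem_append_right _
        (List.mem_flatMap.2 ⟨k, hk, ?_⟩))
      rw [List.mem_range] at hk
      rcases List.mem_cons.1 h with rfl | h
      · exact List.mem_append_left _ (linesE_just hG hX hk (he k hk)).2
      · obtain ⟨l, hl, rfl⟩ := List.mem_map.1 h
        refine List.mem_append_right _ (List.mem_flatMap.2 ⟨l, hl, ?_⟩)
        exact (linesO_just hG hX hk (List.mem_range.1 hl) (he k hk)).2
    · obtain ⟨u, hu, h⟩ := List.mem_flatMap.1 h
      obtain ⟨w, hw, h⟩ := List.mem_flatMap.1 h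
      obtain ⟨v, hv, rfl⟩ := List.mem_map.1 h
      refine List.mem_append_right _ (List.mem_flatMap.2 ⟨u, hu, List.mem_flatMap.2
        ⟨w, hw, List.mem_flatMap.2 ⟨v, hv, ?_⟩⟩⟩)
      exact (linesR_just hG hX (hS u (List.mem_range.1 hu)) (hS w (List.mem_range.1 hw))).2
  obtain ⟨j, mm⟩ := orel_just hG key
  refine Just.append j ⟨Or.inr ?_, trivial⟩
  refine hG.mp (A := orL (reasons n m K t)) ?_ (List.mem_append_right _ mm)
  exact List.mem_append_left _ (List.mem_append_left _ (List.mem_append_left _
    (List.mem_append_left _ hr)))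

theorem linesTs_just (hG : Rich G) (hX : RichX G) {H : Fm} {n m K : ℕ} {π : List Fm}
    (hs : ∀ a < m, sat n a ∈ ands H)
    (he : ∀ k < K, Fm.iff (Z k) (orL (ooL n k)) ∈ π) :
    ∀ T : ℕ, (∀ t < T, imp H (orL (reasons n m K t)) ∈ π) →
      Just (RuleStep G) π ((List.range T).flatMap (fun t => linesT H n m K t)) ∧
      ∀ t < T, imp H (Sat n K t) ∈ (List.range T).flatMap (fun t => linesT H n m K t) := by
  intro T
  induction T with
  | zero => intro _; exact ⟨trivial, fun t ht => absurd ht (by omega)⟩
  | succ T ih =>
    intro hr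
    obtain ⟨j, hm⟩ := ih (fun t ht => hr t (by omega))
    rw [List.range_succ, List.flatMap_append, List.flatMap_cons, List.flatMap_nil,
      List.append_nil]
    obtain ⟨j2, m2⟩ := linesT_just hG hX (H := H) (n := n) (m := m) (K := K) (t := T)
      (π := π ++ (List.range T).flatMap (fun t => linesT H n m K t)) hs
      (List.mem_append_left _ (hr T (by omega)))
      (fun k hk => List.mem_append_left _ (he k hk))
      (fun u hu => List.mem_append_right _ (hm u hu))
    refine ⟨Just.append j j2, ?_⟩
    intro t ht
    rcases Nat.lt_or_ge t T with h | h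
    · exact List.mem_append_left _ (hm t h)
    · obtain rfl : t = T := by omega
      exact List.mem_append_right _ m2

theorem lines1_just (hG : Rich G) (hX : RichX G) {H : Fm} {n K T : ℕ} {π : List Fm}
    (h : imp H (Sat n K T) ∈ π) :
    Just (RuleStep G) π (lines1 H n K T) ∧ imp H (orL (conc n K T)) ∈ lines1 H n K T := by
  refine ⟨?_, by simp [lines1]⟩
  unfold lines1
  refine Just.append (inj_just hX _ _ _) (Just.append (Just.ofMem (mono_ruleStep G) ?_) ?_)
  · intro Y hY
    obtain ⟨X, hX', rfl⟩ := List.mem_map.1 hY
    obtain ⟨l, hl, rfl⟩ := List.mem_map.1 hX'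
    exact Or.inr (hX.y9 (List.mem_append_right _
      (mem_inj (List.mem_map_of_mem (f := fun l => D T l) hl))))
  · obtain ⟨j, m⟩ := orel_just hG (H := H) (S := orL (conc n K T)) (Xs := satL n K T)
      (π := π ++ inj H (conc n K T) ++
        (satL n K T).map (fun X => imp H (imp X (orL (conc n K T))))) (by
      intro X hX'
      exact List.mem_append_right _
        (List.mem_map_of_mem (f := fun X => imp H (imp X (orL (conc n K T)))) hX'))
    refine Just.append j ⟨Or.inr ?_, trivial⟩
    exact hG.mp (A := Sat n K T) (by simp [h]) (List.mem_append_right _ m)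

theorem linesF_just (hG : Rich G) (hX : RichX G) (n m K T : ℕ) :
    Just (RuleStep G) (extA n K) (linesF n m K T) ∧ Sound n m K T ∈ linesF n m K T := by
  have hs : ∀ a < m, sat n a ∈ ands (andL (hyps n m K T)) := by
    intro a ha
    refine ands_andL (List.mem_append_left _ ?_)
    exact List.mem_map_of_mem (f := fun a => sat n a) (List.mem_range.2 ha)
  have hr : ∀ t < T + 1, orL (reasons n m K t) ∈ ands (andL (hyps n m K T)) := by
    intro t ht
    refine ands_andL (List.mem_append_right _ (List.mem_append_right _ ?_))
    exact List.mem_map_of_mem (f := fun t => orL (reasons n m K t)) (List.mem_range.2 ht)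
  obtain ⟨j2, m2⟩ := linesTs_just hG hX (H := andL (hyps n m K T)) (n := n) (m := m) (K := K)
    (π := extA n K ++ projL (andL (hyps n m K T))) hs (fun k hk => List.mem_append_left _
      (List.mem_map_of_mem (f := fun k => Fm.iff (Z k) (orL (ooL n k)))
        (List.mem_range.2 hk))) (T + 1)
    (fun t ht => List.mem_append_right _ (mem_projL (hr t ht)))
  obtain ⟨j3, m3⟩ := lines1_just hG hX (H := andL (hyps n m K T)) (n := n) (K := K) (T := T)
    (π := extA n K ++ projL (andL (hyps n m K T)) ++
      (List.range (T + 1)).flatMap (fun t => linesT (andL (hyps n m K T)) n m K t))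
    (List.mem_append_right _ (m2 T (by omega)))
  unfold linesF
  refine ⟨Just.append (projL_just hG _ _) (Just.append j2 j3), ?_⟩
  exact List.mem_append_right _ (List.mem_append_right _ m3)

end Refl

end Pool.Agent.H.MP_0447ec_lc.PS
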