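import Pool.Agent.H.MP_0447ec_lc.PS.Defs

/-!
# The soundness of extended resolution as a propositional formula
-/

namespace Pool.Agent.H.MP_0447ec_lc.PS

open Fm

/-- The conjunction of a list of formulas; the empty conjunction is `p → p` for the variable `p`
with the empty name. -/
def andL (Γ : List Fm) : Fm := Γ.foldr Fm.and (imp (var []) (var []))

/-- The disjunction of a list of formulas; the empty disjunction is `¬(p → p)` for the variable
`p` with the empty name. -/
def orL (Γ : List Fm) : Fm := Γ.foldr Fm.or (neg (imp (var []) (var [])))

/-- The word `1…10 1…10 …` with `i, j, …` ones in its blocks, for the list `[i, j, …]`. -/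
def nam (l : List ℕ) : List Bool := l.flatMap (fun i => List.replicate i true ++ [false])

/-- The propositional variable with the index `l`. -/
def pv (l : List ℕ) : Fm := var (nam l)

/-! Derivations in extended resolution from `m` clauses in `n` input variables, with `K`
definitions and the lines `0, ..., T`. The variables of the derivation have the numbers
`0, ..., n - 1` (input) and `n, ..., n + K - 1` (defined). The literal number `2 * v` is the
variable number `v`, the literal number `2 * v + 1` is its negation. The defined variable number
`n + k` is equivalent to the disjunction of a non-empty set `E_k` of literals of variables with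
smaller numbers. -/

namespace Refl

/-- The input variable number `i` is true. -/
def X (i : ℕ) : Fm := pv [0, i]

/-- The literal `l` belongs to the input clause number `a`. -/
def C (a l : ℕ) : Fm := pv [1, a, l]

/-- The literal `l` belongs to the set `E_k` in the definition of the variable number `n + k`. -/
def E (k l : ℕ) : Fm := pv [2, k, l]

/-- The literal `l` belongs to the line number `t`. -/
def D (t l : ℕ) : Fm := pv [3, t, l]

/-- The opposite literal. -/
def flip (l : ℕ) : ℕ := if l % 2 = 0 then l + 1 else l - 1

/-- The literal `l` of an input variable is true. -/
def inL (l : ℕ) : Fm := if l % 2 = 0 then X (l / 2) else neg (X (l / 2))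

/-- The input clause number `a` contains a true literal. -/
def sat (n a : ℕ) : Fm := orL ((List.range (2 * n)).map (fun l => and (C a l) (inL l)))

/-- The set `E_k` is not empty. -/
def ne (n k : ℕ) : Fm := orL ((List.range (2 * (n + k))).map (fun l => E k l))

/-- The line `t` contains the input clause number `a`. -/
def rA (n t a : ℕ) : Fm := andL ((List.range (2 * n)).map (fun l => imp (C a l) (D t l)))

/-- The line `t` contains the clause `¬z ∨ ⋁ E_k`, where `z` is the variable number `n + k`. -/
def rE (n t k : ℕ) : Fm :=
  and (D t (2 * (n + k) + 1))
    (andL ((List.range (2 * (n + k))).map (fun l => imp (E k l) (D t l))))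

/-- The literal `l` belongs to `E_k`, and the line `t` contains the clause `z ∨ ¬l`, where `z` is
the variable number `n + k`. -/
def rO (n t k l : ℕ) : Fm := and (E k l) (and (D t (2 * (n + k))) (D t (flip l)))

/-- The line `t` contains all literals of the line `u` with the possible exception of the literal
number `2 * v`, and all literals of the line `w` with the possible exception of the literal number
`2 * v + 1`. -/
def rR (n K t u w v : ℕ) : Fm :=
  and (andL (((List.range (2 * (n + K))).filter (fun l => l ≠ 2 * v)).map
      (fun l => imp (D u l) (D t l))))
    (andL (((List.range (2 * (n + K))).filter (fun l => l ≠ 2 * v + 1)).map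
      (fun l => imp (D w l) (D t l))))

/-- The possible reasons for the line `t`: it contains an input clause, a clause from a definition,
or a resolvent of two earlier lines. -/
def reasons (n m K t : ℕ) : List Fm :=
  (List.range m).map (fun a => rA n t a) ++
  ((List.range K).flatMap (fun k => rE n t k ::
    (List.range (2 * (n + k))).map (fun l => rO n t k l)) ++
  (List.range t).flatMap (fun u => (List.range t).flatMap (fun w =>
    (List.range (n + K)).map (fun v => rR n K t u w v))))

/-- The hypotheses: every input clause is true, the sets `E_k` are not empty, and each of the
lines `0, ..., T` has a reason. -/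
def hyps (n m K T : ℕ) : List Fm :=
  (List.range m).map (fun a => sat n a) ++ ((List.range K).map (fun k => ne n k) ++
    (List.range (T + 1)).map (fun t => orL (reasons n m K t)))

end Refl

/-- The soundness of extended resolution: if all of the `m` input clauses are true, and the
lines `0, ..., T` form a derivation with `K` definitions, then the line `T` is not empty. -/
def Sound (n m K T : ℕ) : Fm :=
  imp (andL (Refl.hyps n m K T)) (orL ((List.range (2 * (n + K))).map (fun l => Refl.D T l)))

end Pool.Agent.H.MP_0447ec_lc.PS
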