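import Pool.Agent.H.MP_0447ec_lc.RF.Blk
import Pool.Agent.H.MP_0447ec_lc.OH.Defs

/-!
# The soundness proof with the permutation rule
-/

namespace Pool.Agent.H.MP_0447ec_lc.PS

open Fm Pool.Agent.H.MP_0447ec_lc.PT

variable {G : List Rule}

/-! ### Weakening -/

/-- Lines from `A` to `imps Hs A`. -/
def wkL (Hs : List Fm) (A : Fm) : List Fm := (sfx Hs).map (fun Γ => imps Γ A)

theorem wkL_just (hG : Rich G) {Hs π : List Fm} {A : Fm} (h : A ∈ π) :
    Just (RuleStep G) π (wkL Hs A) ∧ imps Hs A ∈ wkL Hs A := by
  unfold wkL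
  induction Hs with
  | nil => exact ⟨⟨Or.inl h, trivial⟩, by simp [sfx]⟩
  | cons X Ys ih =>
    obtain ⟨j, m⟩ := ih
    simp only [sfx, List.map_append, List.map_cons, List.map_nil]
    refine ⟨Just.append j ⟨Or.inr ?_, trivial⟩, by simp⟩
    exact hG.weaken (List.mem_append_right _ m)

/-! ### Removing the blocks -/

/-- Lines that introduce a disjunction with another truth variable. -/
def injD (d : Nm) (H : Fm) (Xs : List Fm) : List Fm :=
  (sfx Xs).flatMap (fun Γ => Γ.map (fun X => imp H (imp X (dj d Γ))))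

theorem mem_injD {d : Nm} {H : Fm} {Xs : List Fm} {X : Fm} (hX : X ∈ Xs) :
    imp H (imp X (dj d Xs)) ∈ injD d H Xs := by
  unfold injD
  rw [List.mem_flatMap]
  refine ⟨Xs, ?_, List.mem_map_of_mem (f := fun X => imp H (imp X (dj d Xs))) hX⟩
  cases Xs with
  | nil => simp [sfx]
  | cons A Γ => simp [sfx]

theorem injD_just (hX : RichX G) (d : Nm) (H : Fm) (Xs : List Fm) :
    ∀ π : List Fm, Just (RuleStep G) π (injD d H Xs) := by
  induction Xs with
  | nil => intro π; simp [injD, sfx, Just]
  | cons A Γ ih =>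
    intro π
    have e : injD d H (A :: Γ) = injD d H Γ ++
        (A :: Γ).map (fun X => imp H (imp X (dj d (A :: Γ)))) := by
      simp [injD, sfx]
    rw [e]
    refine Just.append (ih π) (Just.ofMem (mono_ruleStep G) ?_)
    intro C hC
    right
    rw [List.map_cons, List.mem_cons] at hC
    rcases hC with rfl | hC
    · exact hX.i1
    · obtain ⟨X, hX', rfl⟩ := List.mem_map.1 hC
      exact hX.i2 (List.mem_append_right _ (mem_injD hX'))

namespace Refl

/-- The variables of the set `E_k`. -/
def esL (n k : ℕ) : List Fm := (List.range (2 * (n + k))).map (fun l => E k l)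

/-- Lines for the first part of the block number `k`. -/
def neL (H : Fm) (n k : ℕ) : List Fm :=
  injD (nam [2, k, 0]) H (esL n k) ++
    (orel H (dj (nam [2, k, 0]) (esL n k)) (esL n k) ++ [imp H (dj (nam [2, k, 0]) (esL n k))])

theorem neL_just (hG : Rich G) (hX : RichX G) {H : Fm} {n k : ℕ} {π : List Fm}
    (h : imp H (ne n k) ∈ π) :
    Just (RuleStep G) π (neL H n k) ∧ imp H (dj (nam [2, k, 0]) (esL n k)) ∈ neL H n k := by
  refine ⟨?_, by simp [neL]⟩
  unfold neL
  refine Just.append (injD_just hX _ _ _ _) ?_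
  obtain ⟨j, m⟩ := orel_just hG (H := H) (S := dj (nam [2, k, 0]) (esL n k)) (Xs := esL n k)
    (π := π ++ injD (nam [2, k, 0]) H (esL n k))
    (fun X hX' => List.mem_append_right _ (mem_injD hX'))
  refine Just.append j ⟨Or.inr ?_, trivial⟩
  exact hG.mp (A := ne n k) (by simp [h]) (List.mem_append_right _ m)

/-- Lines that remove the blocks. -/
def uwL (n m K T : ℕ) : List Fm :=
  projL (andL (hyps n m K T)) ++
    ((List.range K).flatMap (fun k => neL (andL (hyps n m K T)) n k) ++
      (inj (andL (hyps n m K T)) (conc n K T) ++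
        ((sfx (blks n K T)).map (fun Γ => imp (imps Γ (Sound n m K T)) (Sound n m K T)) ++
          [Sound n m K T])))

theorem uwL_just (hG : Rich G) (hX : RichX G) {n m K T : ℕ} {π : List Fm}
    (h : Star n m K T ∈ π) :
    Just (RuleStep G) π (uwL n m K T) := by
  unfold uwL
  refine Just.append (projL_just hG _ _) (Just.append (Just.flatMap (mono_ruleStep G) _ _ _ ?_)
    (Just.append (inj_just hX _ _ _) ?_))
  · intro k hk
    refine (neL_just hG hX (List.mem_append_right _ (mem_projL (ands_andL ?_)))).1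
    refine List.mem_append_right _ (List.mem_append_left _ ?_)
    exact List.mem_map_of_mem (f := fun k => ne n k) hk
  · have hP : ∀ k < K, imp (andL (hyps n m K T)) (dj (nam [2, k, 0]) (esL n k)) ∈
        (List.range K).flatMap (fun k => neL (andL (hyps n m K T)) n k) := by
      intro k hk
      refine List.mem_flatMap.2 ⟨k, List.mem_range.2 hk, ?_⟩
      simp [neL]
    have hD : ∀ k < K, imp (andL (hyps n m K T)) (imp (D T k) (orL (conc n K T))) ∈
        inj (andL (hyps n m K T)) (conc n K T) := by
      intro k hk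
      exact mem_inj (List.mem_map_of_mem (f := fun l => D T l)
        (List.mem_range.2 (by omega : k < 2 * (n + K))))
    have key : ∀ Hs : List Fm, (∀ B ∈ Hs, B ∈ blks n K T) → ∀ π' : List Fm,
        (∀ k < K, imp (andL (hyps n m K T)) (dj (nam [2, k, 0]) (esL n k)) ∈ π') →
        (∀ k < K, imp (andL (hyps n m K T)) (imp (D T k) (orL (conc n K T))) ∈ π') →
        Just (RuleStep G) π'
          ((sfx Hs).map (fun Γ => imp (imps Γ (Sound n m K T)) (Sound n m K T))) ∧
        imp (imps Hs (Sound n m K T)) (Sound n m K T) ∈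
          (sfx Hs).map (fun Γ => imp (imps Γ (Sound n m K T)) (Sound n m K T)) := by
      intro Hs
      induction Hs with
      | nil =>
        intro _ π' _ _
        exact ⟨⟨Or.inr hG.refl, trivial⟩, by simp [sfx]⟩
      | cons B Hs ih =>
        intro hB π' h1 h2
        obtain ⟨j, mm⟩ := ih (fun B hB' => hB B (List.mem_cons_of_mem _ hB')) π' h1 h2
        simp only [sfx, List.map_append, List.map_cons, List.map_nil]
        refine ⟨Just.append j ⟨Or.inr ?_, trivial⟩, by simp⟩
        obtain ⟨k, hk, rfl⟩ := List.mem_map.1 (hB B (by simp))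
        rw [List.mem_range] at hk
        exact hX.z1 (H := andL (hyps n m K T)) (O := orL (conc n K T))
          (P := dj (nam [2, k, 0]) (esL n k)) (D := D T k)
          (List.mem_append_right _ mm) (List.mem_append_left _ (h1 k hk))
          (List.mem_append_left _ (h2 k hk))
    obtain ⟨j, mm⟩ := key (blks n K T) (fun _ h => h)
      (π ++ projL (andL (hyps n m K T)) ++
        (List.range K).flatMap (fun k => neL (andL (hyps n m K T)) n k) ++
        inj (andL (hyps n m K T)) (conc n K T))
      (fun k hk => List.mem_append_left _ (List.mem_append_right _ (hP k hk)))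
      (fun k hk => List.mem_append_right _ (hD k hk))
    refine Just.append j ⟨Or.inr ?_, trivial⟩
    exact hG.mp0 (A := Star n m K T) (by simp [h]) (List.mem_append_right _ mm)

end Refl

/-! ### Closure of the system under rules -/

theorem perm_close {F : List Rule} (hF : IsFrege F) :
    ∃ h : List Fm × List Fm × Fm → List Fm, Poly h ∧ ∀ (A B : Fm) (π τ : List Fm),
      PermProof F A π → Just (RuleStep (GG F ++ XR)) π τ → B ∈ τ → PermProof F B (h (π, τ, B)) := by
  obtain ⟨h0, hp, hh⟩ := robust hF (XG_sound hF)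
  refine ⟨fun x => h0 (cutAt x.2.2 (app x.1 x.2.1)), ?_, ?_⟩
  · exact hp.comp (Poly.cutAt (by fun_prop) (Poly.app (by fun_prop) (by fun_prop)))
  · intro A B π τ hπ hτ hB
    have hm : Mono (fun σ B => RuleStep (GG F ++ XR) σ B ∨ PermStep σ B) := by
      rintro π π' B h (h1 | h1)
      · exact Or.inl (mono_ruleStep _ π π' B h h1)
      · exact Or.inr (mono_permStep π π' B h h1)
    have h1 : Deriv (fun σ B => RuleStep (GG F ++ XR) σ B ∨ PermStep σ B) π := by
      refine hπ.1.imp_step ?_
      rintro σ B (⟨r, hr, s, h2, h3⟩ | h)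
      · exact Or.inl ⟨r, List.mem_append_left _ (List.mem_append_left _
          (List.mem_append_left _ hr)), s, h2, h3⟩
      · exact Or.inr h
    have h2 := deriv_app hm h1 (Just.imp_step hτ (fun _ _ h => Or.inl h))
    obtain ⟨h3, h4⟩ := deriv_cutAt h2 (mem_app.2 (Or.inr hB))
    obtain ⟨h5, h6, -⟩ := hh PermStep mono_permStep _ _ h3 h4
    exact ⟨h5, h6⟩

end Pool.Agent.H.MP_0447ec_lc.PS
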