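import Pool.Agent.H.MP_0447ec_lc.RF.CoreA

/-!
# The lines of the extended Frege proof of the soundness of extended resolution
-/

namespace Pool.Agent.H.MP_0447ec_lc.PS

open Fm

namespace Refl

/-- The value of the defined variable number `n + k`. -/
def Z (k : ℕ) : Fm := pv [4, k]

/-- The value of the variable number `i`. -/
def vr (n i : ℕ) : Fm := if i < n then X i else Z (i - n)

/-- The value of the literal `l`. -/
def vl (n l : ℕ) : Fm := if l % 2 = 0 then vr n (l / 2) else neg (vr n (l / 2))

/-- The disjuncts of the definition of `Z k`. -/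
def ooL (n k : ℕ) : List Fm :=
  (List.range (2 * (n + k))).map (fun l => Fm.and (E k l) (vl n l))

/-- The extension axioms. -/
def extA (n K : ℕ) : List Fm := (List.range K).map (fun k => Fm.iff (Z k) (orL (ooL n k)))

/-- The disjuncts of `Sat`. -/
def satL (n K t : ℕ) : List Fm :=
  (List.range (2 * (n + K))).map (fun l => Fm.and (D t l) (vl n l))

/-- The line `t` is true. -/
def Sat (n K t : ℕ) : Fm := orL (satL n K t)

/-- The literals of line `T`. -/
def conc (n K T : ℕ) : List Fm := (List.range (2 * (n + K))).map (fun l => D T l)

/-- The case of an input clause. -/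
def bodyA (G : Fm) (n K t a : ℕ) : List Fm :=
  copyL G (Sat n K t) ((List.range (2 * n)).map (fun l => (C a l, D t l, vl n l)))

/-- The case of the first defining clause. -/
def bodyE (G : Fm) (n K t k : ℕ) : List Fm :=
  copyL G (Sat n K t) ((List.range (2 * (n + k))).map (fun l => (E k l, D t l, vl n l))) ++
    [imp G (imp (neg (Z k)) (Sat n K t))]

/-- The case of the other defining clauses. -/
def bodyO (G : Fm) (n K t k l : ℕ) : List Fm :=
  inj G (ooL n k) ++ [imp G (imp (vl n (flip l)) (Sat n K t)), imp G (imp (Z k) (Sat n K t))]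

/-- One half of the case of a resolvent: from the line `u`, under the assumption `N` about the
variable. -/
def bodyH (G : Fm) (n K u : ℕ) (N S : Fm) : List Fm :=
  imp G (Sat n K u) :: ((List.range (2 * (n + K))).map (fun l =>
    imp G (imp (Fm.and (D u l) (vl n l)) (imp N S))) ++
    (orel G (imp N S) (satL n K u) ++ [imp G (imp N S)]))

/-- The case of a resolvent. -/
def bodyR (G : Fm) (n K t u w v : ℕ) : List Fm :=
  bodyH G n K u (neg (vr n v)) (Sat n K t) ++ bodyH G n K w (vr n v) (Sat n K t)

/-- The case of an input clause. -/
def linesA (H : Fm) (n K t a : ℕ) : List Fm :=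
  caseW H (rA n t a) (Sat n K t) (satL n K t) (bodyA (Fm.and (rA n t a) H) n K t a)

/-- The case of the first defining clause. -/
def linesE (H : Fm) (n K t k : ℕ) : List Fm :=
  caseW H (rE n t k) (Sat n K t) (satL n K t) (bodyE (Fm.and (rE n t k) H) n K t k)

/-- The case of the other defining clauses. -/
def linesO (H : Fm) (n K t k l : ℕ) : List Fm :=
  caseW H (rO n t k l) (Sat n K t) (satL n K t) (bodyO (Fm.and (rO n t k l) H) n K t k l)

/-- The case of a resolvent. -/
def linesR (H : Fm) (n K t u w v : ℕ) : List Fm :=
  caseW H (rR n K t u w v) (Sat n K t) (satL n K t)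
    (bodyR (Fm.and (rR n K t u w v) H) n K t u w v)

/-- All lines for the line `t`. -/
def linesT (H : Fm) (n m K t : ℕ) : List Fm :=
  (List.range m).flatMap (fun a => linesA H n K t a) ++
  ((List.range K).flatMap (fun k => linesE H n K t k ++
    (List.range (2 * (n + k))).flatMap (fun l => linesO H n K t k l)) ++
  ((List.range t).flatMap (fun u => (List.range t).flatMap (fun w =>
    (List.range (n + K)).flatMap (fun v => linesR H n K t u w v))) ++
  (orel H (Sat n K t) (reasons n m K t) ++ [imp H (Sat n K t)])))

/-- The last lines. -/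
def lines1 (H : Fm) (n K T : ℕ) : List Fm :=
  inj H (conc n K T) ++
    ((satL n K T).map (fun X => imp H (imp X (orL (conc n K T)))) ++
      (orel H (orL (conc n K T)) (satL n K T) ++ [imp H (orL (conc n K T))]))

/-- All lines that are not extension axioms. -/
def linesF (n m K T : ℕ) : List Fm :=
  projL (andL (hyps n m K T)) ++
    ((List.range (T + 1)).flatMap (fun t => linesT (andL (hyps n m K T)) n m K t) ++
      lines1 (andL (hyps n m K T)) n K T)

end Refl

end Pool.Agent.H.MP_0447ec_lc.PS
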