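import Pool.Agent.H.MP_0447ec_lc.RF.Lines
import Pool.Agent.H.MP_0447ec_lc.LV.EnginePoly
import Pool.Agent.H.MP_0447ec_lc.LV.SliceBasic

/-!
# The lines of the proof are computed in polynomial time
-/

namespace Pool.Agent.H.MP_0447ec_lc.PS

open Fm Pool.Agent.H.MP_0447ec_lc.PT

variable {α : Type} [Enc α]

@[fun_prop]
theorem Poly.nam {l : α → List ℕ} (hl : Poly l) : Poly (fun a => nam (l a)) := by
  unfold PS.nam
  fun_prop

@[fun_prop]
theorem Poly.pv {l : α → List ℕ} (hl : Poly l) : Poly (fun a => pv (l a)) := by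
  unfold PS.pv
  fun_prop

@[fun_prop]
theorem Poly.rfMod {l : α → ℕ} (hl : Poly l) : Poly (fun a => l a % 2) := by
  have : Poly (fun a => l a - 2 * (l a / 2)) := by fun_prop
  refine (show (fun a => l a % 2) = _ from ?_) ▸ this
  funext a
  omega

@[fun_prop]
theorem Poly.rfNe {f g : α → ℕ} (hf : Poly f) (hg : Poly g) :
    Poly (fun a => decide (f a ≠ g a)) := by
  have : Poly (fun a => !decide (f a = g a)) := by fun_prop
  refine (show (fun a => decide (f a ≠ g a)) = _ from ?_) ▸ this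
  funext a
  simp

@[fun_prop]
theorem Poly.andL {G : α → List Fm} (hG : Poly G) : Poly (fun a => andL (G a)) :=
  Poly.cj (d := fun _ => []) (by fun_prop) hG

@[fun_prop]
theorem Poly.orLs {G : α → List Fm} (hG : Poly G) : Poly (fun a => PS.orL (G a)) :=
  Poly.dj (d := fun _ => []) (by fun_prop) hG

@[fun_prop]
theorem Poly.rfX {i : α → ℕ} (hi : Poly i) : Poly (fun a => Refl.X (i a)) := by
  unfold Refl.X
  fun_prop

@[fun_prop]
theorem Poly.rfC {i j : α → ℕ} (hi : Poly i) (hj : Poly j) :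
    Poly (fun a => Refl.C (i a) (j a)) := by
  unfold Refl.C
  fun_prop

@[fun_prop]
theorem Poly.rfE {i j : α → ℕ} (hi : Poly i) (hj : Poly j) :
    Poly (fun a => Refl.E (i a) (j a)) := by
  unfold Refl.E
  fun_prop

@[fun_prop]
theorem Poly.rfD {i j : α → ℕ} (hi : Poly i) (hj : Poly j) :
    Poly (fun a => Refl.D (i a) (j a)) := by
  unfold Refl.D
  fun_prop

@[fun_prop]
theorem Poly.rfFlip {l : α → ℕ} (hl : Poly l) : Poly (fun a => Refl.flip (l a)) := by
  unfold Refl.flip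
  fun_prop

@[fun_prop]
theorem Poly.rfInL {l : α → ℕ} (hl : Poly l) : Poly (fun a => Refl.inL (l a)) := by
  unfold Refl.inL
  fun_prop

@[fun_prop]
theorem Poly.rfSat {n i : α → ℕ} (hn : Poly n) (hi : Poly i) :
    Poly (fun a => Refl.sat (n a) (i a)) := by
  unfold Refl.sat
  fun_prop

@[fun_prop]
theorem Poly.rfNE {n k : α → ℕ} (hn : Poly n) (hk : Poly k) :
    Poly (fun a => Refl.ne (n a) (k a)) := by
  unfold Refl.ne
  fun_prop

@[fun_prop]
theorem Poly.rfRA {n t i : α → ℕ} (hn : Poly n) (ht : Poly t) (hi : Poly i) :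
    Poly (fun a => Refl.rA (n a) (t a) (i a)) := by
  unfold Refl.rA
  fun_prop

@[fun_prop]
theorem Poly.rfRE {n t k : α → ℕ} (hn : Poly n) (ht : Poly t) (hk : Poly k) :
    Poly (fun a => Refl.rE (n a) (t a) (k a)) := by
  unfold Refl.rE
  fun_prop

@[fun_prop]
theorem Poly.rfRO {n t k l : α → ℕ} (hn : Poly n) (ht : Poly t) (hk : Poly k) (hl : Poly l) :
    Poly (fun a => Refl.rO (n a) (t a) (k a) (l a)) := by
  unfold Refl.rO
  fun_prop

@[fun_prop]
theorem Poly.rfRR {n K t u w v : α → ℕ} (hn : Poly n) (hK : Poly K) (ht : Poly t) (hu : Poly u)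
    (hw : Poly w) (hv : Poly v) :
    Poly (fun a => Refl.rR (n a) (K a) (t a) (u a) (w a) (v a)) := by
  unfold Refl.rR
  fun_prop

@[fun_prop]
theorem Poly.rfReasons {n m K t : α → ℕ} (hn : Poly n) (hm : Poly m) (hK : Poly K)
    (ht : Poly t) : Poly (fun a => Refl.reasons (n a) (m a) (K a) (t a)) := by
  unfold Refl.reasons
  fun_prop

@[fun_prop]
theorem Poly.hyps {n m K T : α → ℕ} (hn : Poly n) (hm : Poly m) (hK : Poly K) (hT : Poly T) :
    Poly (fun a => Refl.hyps (n a) (m a) (K a) (T a)) := by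
  unfold Refl.hyps
  fun_prop

@[fun_prop]
theorem Poly.rfZ {i : α → ℕ} (hi : Poly i) : Poly (fun a => Refl.Z (i a)) := by
  unfold Refl.Z
  fun_prop

@[fun_prop]
theorem Poly.rfVr {n i : α → ℕ} (hn : Poly n) (hi : Poly i) :
    Poly (fun a => Refl.vr (n a) (i a)) := by
  unfold Refl.vr
  fun_prop

@[fun_prop]
theorem Poly.rfVl {n i : α → ℕ} (hn : Poly n) (hi : Poly i) :
    Poly (fun a => Refl.vl (n a) (i a)) := by
  unfold Refl.vl
  fun_prop

@[fun_prop]
theorem Poly.rfOoL {n i : α → ℕ} (hn : Poly n) (hi : Poly i) :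
    Poly (fun a => Refl.ooL (n a) (i a)) := by
  unfold Refl.ooL
  fun_prop

@[fun_prop]
theorem Poly.extA {n K : α → ℕ} (hn : Poly n) (hK : Poly K) :
    Poly (fun a => Refl.extA (n a) (K a)) := by
  unfold Refl.extA
  fun_prop

@[fun_prop]
theorem Poly.Sound {n m K T : α → ℕ} (hn : Poly n) (hm : Poly m) (hK : Poly K) (hT : Poly T) :
    Poly (fun a => Sound (n a) (m a) (K a) (T a)) := by
  unfold PS.Sound
  fun_prop

@[fun_prop]
theorem Poly.rfSatL {n K t : α → ℕ} (hn : Poly n) (hK : Poly K) (ht : Poly t) :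
    Poly (fun a => Refl.satL (n a) (K a) (t a)) := by
  unfold Refl.satL
  fun_prop

@[fun_prop]
theorem Poly.rfSatF {n K t : α → ℕ} (hn : Poly n) (hK : Poly K) (ht : Poly t) :
    Poly (fun a => Refl.Sat (n a) (K a) (t a)) := by
  unfold Refl.Sat
  fun_prop

@[fun_prop]
theorem Poly.rfConc {n K t : α → ℕ} (hn : Poly n) (hK : Poly K) (ht : Poly t) :
    Poly (fun a => Refl.conc (n a) (K a) (t a)) := by
  unfold Refl.conc
  fun_prop

@[fun_prop]
theorem Poly.rfOrel {H S : α → Fm} {Xs : α → List Fm} (hH : Poly H) (hS : Poly S)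
    (hX : Poly Xs) : Poly (fun a => orel (H a) (S a) (Xs a)) := by
  unfold PS.orel
  fun_prop

@[fun_prop]
theorem Poly.rfInj {H : α → Fm} {Xs : α → List Fm} (hH : Poly H) (hX : Poly Xs) :
    Poly (fun a => inj (H a) (Xs a)) := by
  unfold PS.inj
  fun_prop

@[fun_prop]
theorem Poly.rfCopyL {H S : α → Fm} {cs : α → List (Fm × Fm × Fm)} (hH : Poly H) (hS : Poly S)
    (hc : Poly cs) : Poly (fun a => copyL (H a) (S a) (cs a)) := by
  unfold PS.copyL
  fun_prop

@[fun_prop]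
theorem Poly.rfCaseW {H R S : α → Fm} {Xs b : α → List Fm} (hH : Poly H) (hR : Poly R)
    (hS : Poly S) (hX : Poly Xs) (hb : Poly b) :
    Poly (fun a => caseW (H a) (R a) (S a) (Xs a) (b a)) := by
  unfold PS.caseW
  fun_prop

@[fun_prop]
theorem Poly.rfBodyA {G : α → Fm} {n K t i : α → ℕ} (hG : Poly G) (hn : Poly n) (hK : Poly K)
    (ht : Poly t) (hi : Poly i) :
    Poly (fun a => Refl.bodyA (G a) (n a) (K a) (t a) (i a)) := by
  unfold Refl.bodyA
  fun_prop

@[fun_prop]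
theorem Poly.rfBodyE {G : α → Fm} {n K t i : α → ℕ} (hG : Poly G) (hn : Poly n) (hK : Poly K)
    (ht : Poly t) (hi : Poly i) :
    Poly (fun a => Refl.bodyE (G a) (n a) (K a) (t a) (i a)) := by
  unfold Refl.bodyE
  fun_prop

@[fun_prop]
theorem Poly.rfBodyO {G : α → Fm} {n K t i l : α → ℕ} (hG : Poly G) (hn : Poly n)
    (hK : Poly K) (ht : Poly t) (hi : Poly i) (hl : Poly l) :
    Poly (fun a => Refl.bodyO (G a) (n a) (K a) (t a) (i a) (l a)) := by
  unfold Refl.bodyO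
  fun_prop

@[fun_prop]
theorem Poly.rfBodyH {G : α → Fm} {n K u : α → ℕ} {N S : α → Fm} (hG : Poly G) (hn : Poly n)
    (hK : Poly K) (hu : Poly u) (hN : Poly N) (hS : Poly S) :
    Poly (fun a => Refl.bodyH (G a) (n a) (K a) (u a) (N a) (S a)) := by
  unfold Refl.bodyH
  fun_prop

@[fun_prop]
theorem Poly.rfBodyR {G : α → Fm} {n K t u w v : α → ℕ} (hG : Poly G) (hn : Poly n)
    (hK : Poly K) (ht : Poly t) (hu : Poly u) (hw : Poly w) (hv : Poly v) :
    Poly (fun a => Refl.bodyR (G a) (n a) (K a) (t a) (u a) (w a) (v a)) := by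
  unfold Refl.bodyR
  fun_prop

@[fun_prop]
theorem Poly.rfLinesA {H : α → Fm} {n K t i : α → ℕ} (hH : Poly H) (hn : Poly n) (hK : Poly K)
    (ht : Poly t) (hi : Poly i) :
    Poly (fun a => Refl.linesA (H a) (n a) (K a) (t a) (i a)) := by
  unfold Refl.linesA
  fun_prop

@[fun_prop]
theorem Poly.rfLinesE {H : α → Fm} {n K t i : α → ℕ} (hH : Poly H) (hn : Poly n) (hK : Poly K)
    (ht : Poly t) (hi : Poly i) :
    Poly (fun a => Refl.linesE (H a) (n a) (K a) (t a) (i a)) := by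
  unfold Refl.linesE
  fun_prop

@[fun_prop]
theorem Poly.rfLinesO {H : α → Fm} {n K t i l : α → ℕ} (hH : Poly H) (hn : Poly n)
    (hK : Poly K) (ht : Poly t) (hi : Poly i) (hl : Poly l) :
    Poly (fun a => Refl.linesO (H a) (n a) (K a) (t a) (i a) (l a)) := by
  unfold Refl.linesO
  fun_prop

@[fun_prop]
theorem Poly.rfLinesR {H : α → Fm} {n K t u w v : α → ℕ} (hH : Poly H) (hn : Poly n)
    (hK : Poly K) (ht : Poly t) (hu : Poly u) (hw : Poly w) (hv : Poly v) :
    Poly (fun a => Refl.linesR (H a) (n a) (K a) (t a) (u a) (w a) (v a)) := by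
  unfold Refl.linesR
  fun_prop

@[fun_prop]
theorem Poly.rfLinesT {H : α → Fm} {n m K t : α → ℕ} (hH : Poly H) (hn : Poly n) (hm : Poly m)
    (hK : Poly K) (ht : Poly t) :
    Poly (fun a => Refl.linesT (H a) (n a) (m a) (K a) (t a)) := by
  unfold Refl.linesT
  fun_prop

@[fun_prop]
theorem Poly.rfLines1 {H : α → Fm} {n K T : α → ℕ} (hH : Poly H) (hn : Poly n) (hK : Poly K)
    (hT : Poly T) : Poly (fun a => Refl.lines1 (H a) (n a) (K a) (T a)) := by
  unfold Refl.lines1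
  fun_prop

@[fun_prop]
theorem Poly.linesF {n m K T : α → ℕ} (hn : Poly n) (hm : Poly m) (hK : Poly K) (hT : Poly T) :
    Poly (fun a => Refl.linesF (n a) (m a) (K a) (T a)) := by
  unfold Refl.linesF
  fun_prop

end Pool.Agent.H.MP_0447ec_lc.PS
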