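import Pool.Agent.H.MP_0447ec_lc.RF.Fin
import Pool.Agent.H.MP_0447ec_lc.RF.Pol

/-!
# Polynomial-time proofs of the soundness of extended resolution
-/

namespace Pool.Agent.H.MP_0447ec_lc.PS

open Fm Pool.Agent.H.MP_0447ec_lc.PT

section

variable {α : Type} [Enc α]

@[fun_prop]
theorem Poly.wkL {Hs : α → List Fm} {A : α → Fm} (hH : Poly Hs) (hA : Poly A) :
    Poly (fun a => wkL (Hs a) (A a)) := by
  unfold PS.wkL
  fun_prop

@[fun_prop]
theorem Poly.injD {d : α → Nm} {H : α → Fm} {Xs : α → List Fm} (hd : Poly d) (hH : Poly H)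
    (hX : Poly Xs) : Poly (fun a => injD (d a) (H a) (Xs a)) := by
  unfold PS.injD
  fun_prop

@[fun_prop]
theorem Poly.rfEsL {n k : α → ℕ} (hn : Poly n) (hk : Poly k) :
    Poly (fun a => Refl.esL (n a) (k a)) := by
  unfold Refl.esL
  fun_prop

@[fun_prop]
theorem Poly.rfNeL {H : α → Fm} {n k : α → ℕ} (hH : Poly H) (hn : Poly n) (hk : Poly k) :
    Poly (fun a => Refl.neL (H a) (n a) (k a)) := by
  unfold Refl.neL
  fun_prop

@[fun_prop]
theorem Poly.rfBlk {n T k : α → ℕ} (hn : Poly n) (hT : Poly T) (hk : Poly k) :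
    Poly (fun a => Refl.blk (n a) (T a) (k a)) := by
  unfold Refl.blk
  fun_prop

@[fun_prop]
theorem Poly.rfBlks {n K T : α → ℕ} (hn : Poly n) (hK : Poly K) (hT : Poly T) :
    Poly (fun a => Refl.blks (n a) (K a) (T a)) := by
  unfold Refl.blks
  fun_prop

@[fun_prop]
theorem Poly.rfStar {n m K T : α → ℕ} (hn : Poly n) (hm : Poly m) (hK : Poly K) (hT : Poly T) :
    Poly (fun a => Refl.Star (n a) (m a) (K a) (T a)) := by
  unfold Refl.Star
  fun_prop

@[fun_prop]
theorem Poly.rfUwL {n m K T : α → ℕ} (hn : Poly n) (hm : Poly m) (hK : Poly K) (hT : Poly T) :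
    Poly (fun a => Refl.uwL (n a) (m a) (K a) (T a)) := by
  unfold Refl.uwL
  fun_prop

end

/-- The theorem on blocks, as it is used here. -/
def BlockThm (F : List Rule) : Prop :=
  ∃ f : (List Fm × Fm) × ℕ × List Fm → List Fm, Poly f ∧
    ∀ (Hs : List Fm) (B : Fm) (b : ℕ) (π : List Fm), Blocks Hs →
      b ≤ 1 * Hs.length * Nat.log 2 (sz π) → NarrowProof F (imps Hs B) b π →
      PermProof F (imps Hs B) (f ((Hs, B), b, π))

theorem soundness_of {F : List Rule} (hF : IsFrege F) (hM : BlockThm F) :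
    ∃ f : List ℕ → List Fm, Poly f ∧
      ∀ n m K T : ℕ, PermProof F (Sound n m K T) (f [n, m, K, T]) := by
  obtain ⟨fM, pM, hM⟩ := hM
  obtain ⟨hN, pN, hN'⟩ := narrow_of_lines hF
  obtain ⟨hC, pC, hC'⟩ := perm_close hF
  let N : ℕ × ℕ × ℕ × ℕ → List Fm := fun x =>
    hN (Refl.extA x.1 x.2.2.1,
      (Refl.linesF x.1 x.2.1 x.2.2.1 x.2.2.2 ++
        wkL (Refl.blks x.1 x.2.2.1 x.2.2.2) (Sound x.1 x.2.1 x.2.2.1 x.2.2.2)) ++
      [Refl.Star x.1 x.2.1 x.2.2.1 x.2.2.2])
  have hNp : Poly N := by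
    refine pN.comp ?_
    fun_prop
  let M : ℕ × ℕ × ℕ × ℕ → List Fm := fun x =>
    fM ((Refl.blks x.1 x.2.2.1 x.2.2.2, Sound x.1 x.2.1 x.2.2.1 x.2.2.2), x.2.2.1, N x)
  have hMp : Poly M := by
    refine pM.comp ?_
    fun_prop
  let R : ℕ × ℕ × ℕ × ℕ → List Fm := fun x =>
    hC (M x, Refl.uwL x.1 x.2.1 x.2.2.1 x.2.2.2, Sound x.1 x.2.1 x.2.2.1 x.2.2.2)
  have hRp : Poly R := by
    refine pC.comp ?_
    fun_prop
  refine ⟨fun l => R (l.getD 0 0, l.getD 1 0, l.getD 2 0, l.getD 3 0), hRp.comp (by fun_prop),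
    ?_⟩
  intro n m K T
  show PermProof F (Sound n m K T) (R (n, m, K, T))
  have hG : Rich (GG F ++ XR) := fun r hr => List.mem_append_left _ (GG_rich F r hr)
  have hX : RichX (GG F ++ XR) := fun r hr => List.mem_append_right _ hr
  obtain ⟨j1, m1⟩ := Refl.linesF_just hG hX n m K T
  obtain ⟨j2, m2⟩ := wkL_just hG (Hs := Refl.blks n K T) (A := Sound n m K T)
    (π := Refl.extA n K ++ Refl.linesF n m K T) (List.mem_append_right _ m1)
  have h1 := hN' (Refl.Star n m K T) (Refl.axL n K)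
    (Refl.linesF n m K T ++ wkL (Refl.blks n K T) (Sound n m K T)) (Refl.extOk n m K T)
    (by rw [Refl.axL_eq]; exact Just.append j1 j2) (List.mem_append_right _ m2)
  rw [Refl.axL_eq] at h1
  have hlen : (Refl.axL n K).length = K := by simp [Refl.axL]
  have hlen' : (Refl.blks n K T).length = K := by simp [Refl.blks]
  rw [hlen] at h1
  have h2 : PermProof F (Refl.Star n m K T) (M (n, m, K, T)) := by
    refine hM _ _ K _ (Refl.blocks_blks n K T) ?_ h1
    rw [hlen', one_mul]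
    have h3 : 1 ≤ Nat.log 2 (sz (N (n, m, K, T))) := by
      have h0 : N (n, m, K, T) ≠ [] := fun h => by
        have h5 := h1.2
        rw [show hN (Refl.extA n K, Refl.linesF n m K T ++
          wkL (Refl.blks n K T) (Sound n m K T) ++ [Refl.Star n m K T]) = [] from h] at h5
        simp at h5
      exact Nat.log_pos (by norm_num) (two_le_sz h0)
    exact Nat.le_mul_of_pos_right K h3
  have h4 := Refl.uwL_just hG hX (n := n) (m := m) (K := K) (T := T)
    (π := M (n, m, K, T)) (List.mem_of_getLast? h2.2)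
  exact hC' _ _ _ _ h2 h4 (by simp [Refl.uwL])

end Pool.Agent.H.MP_0447ec_lc.PS
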