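import Pool.Agent.H.MP_0447ec_lc.RF.Defs
import Pool.Agent.H.MP_0447ec_lc.LV.Base

/-!
# Additional rules
-/

namespace Pool.Agent.H.MP_0447ec_lc.PS

open Fm

theorem andL_eq (Γ : List Fm) : andL Γ = cj [] Γ := rfl

theorem orL_eq (Γ : List Fm) : orL Γ = dj [] Γ := rfl

/-- Metavariables. -/
def w5 : Fm := var [true, true, true, true, true]

/-- The substitution for the six metavariables. -/
def s6 (X0 X1 X2 X3 X4 X5 : Fm) : Nm → Fm := fun w =>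
  match w with
  | [] => X0
  | [_] => X1
  | [_, _] => X2
  | [_, _, _] => X3
  | [_, _, _, _] => X4
  | _ => X5

/-- Additional rules. -/
def XR : List Rule :=
  [⟨[imp v0 (imp v1 v2), imp v0 (imp (Fm.and v2 v3) v4)], imp v0 (imp (Fm.and v1 v3) v4)⟩,
   ⟨[imp v0 v2, imp v0 (imp (Fm.and v2 v3) v4)], imp v0 (imp v3 v4)⟩,
   ⟨[Fm.iff v1 v2, imp v0 (imp v2 v3), imp v0 (imp (neg v1) v3)], imp v0 v3⟩,
   ⟨[Fm.iff v1 v2, imp v0 v3, imp v0 (imp (Fm.and v3 v4) v2), imp v0 (imp (neg v4) w5),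
      imp v0 (imp v1 w5)], imp v0 w5⟩,
   ⟨[Fm.iff v1 v2, imp v0 v3, imp v0 (imp (Fm.and v3 (neg v4)) v2), imp v0 (imp v4 w5),
      imp v0 (imp v1 w5)], imp v0 w5⟩,
   ⟨[imp v0 (imp v1 v2), imp v0 (imp (Fm.and v2 v3) v4)],
      imp v0 (imp (Fm.and v1 v3) (imp w5 v4))⟩,
   ⟨[], imp v0 (imp (Fm.and v1 v2) (imp (neg v2) v3))⟩,
   ⟨[], imp v0 (imp (Fm.and v1 (neg v2)) (imp v2 v3))⟩,
   ⟨[imp v0 (imp (neg v1) v2), imp v0 (imp v1 v2)], imp v0 v2⟩,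
   ⟨[imp v0 (imp v1 v2)], imp v0 (imp (Fm.and v1 v3) v2)⟩,
   ⟨[], imp v0 (imp v1 (Fm.or v1 v2))⟩,
   ⟨[imp v0 (imp v1 v2)], imp v0 (imp v1 (Fm.or v3 v2))⟩,
   ⟨[imp v1 (imp v0 v2), imp v0 v3, imp v0 (imp v4 v2)],
      imp (imp (Fm.and v3 (neg v4)) v1) (imp v0 v2)⟩]

theorem XR_sound : ∀ r ∈ XR, ∀ v : Nm → Prop, (∀ P ∈ r.prem, P.Eval v) → r.concl.Eval v := by
  intro r hr v hv
  unfold XR at hr
  simp only [List.mem_cons, List.not_mem_nil, or_false] at hr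
  rcases hr with rfl | rfl | rfl | rfl | rfl | rfl | rfl | rfl | rfl | rfl | rfl | rfl | rfl <;>
    simp [Fm.Eval, Fm.iff, v0, v1, v2, v3, v4, w5] at hv ⊢ <;>
    tauto

section steps

variable {G : List Rule} {π : List Fm} {H C D L N O P S W Z A B : Fm}

/-- The set of rules contains the additional rules. -/
def RichX (G : List Rule) : Prop := ∀ r ∈ XR, r ∈ G

theorem RichX.step (hG : RichX G) (r : Rule) (hr : r ∈ XR) (X0 X1 X2 X3 X4 X5 : Fm)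
    (hp : ∀ P ∈ r.prem, P.subst (s6 X0 X1 X2 X3 X4 X5) ∈ π)
    {D : Fm} (hD : r.concl.subst (s6 X0 X1 X2 X3 X4 X5) = D) : RuleStep G π D :=
  ⟨r, hG r hr, s6 X0 X1 X2 X3 X4 X5, hp, hD⟩

theorem RichX.y1 (hG : RichX G) (h1 : imp H (imp C D) ∈ π)
    (h2 : imp H (imp (Fm.and D L) S) ∈ π) : RuleStep G π (imp H (imp (Fm.and C L) S)) :=
  hG.step ⟨[imp v0 (imp v1 v2), imp v0 (imp (Fm.and v2 v3) v4)],
      imp v0 (imp (Fm.and v1 v3) v4)⟩ (by simp [XR]) H C D L S H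
    (by simpa [Fm.subst, v0, v1, v2, v3, v4, s6] using ⟨h1, h2⟩) rfl

theorem RichX.y2 (hG : RichX G) (h1 : imp H D ∈ π)
    (h2 : imp H (imp (Fm.and D L) S) ∈ π) : RuleStep G π (imp H (imp L S)) :=
  hG.step ⟨[imp v0 v2, imp v0 (imp (Fm.and v2 v3) v4)], imp v0 (imp v3 v4)⟩
    (by simp [XR]) H H D L S H
    (by simpa [Fm.subst, v0, v2, v3, v4, s6] using ⟨h1, h2⟩) rfl

theorem RichX.y3 (hG : RichX G) (h1 : Fm.iff Z P ∈ π) (h2 : imp H (imp P S) ∈ π)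
    (h3 : imp H (imp (neg Z) S) ∈ π) : RuleStep G π (imp H S) :=
  hG.step ⟨[Fm.iff v1 v2, imp v0 (imp v2 v3), imp v0 (imp (neg v1) v3)], imp v0 v3⟩
    (by simp [XR]) H Z P S H H
    (by simpa [Fm.subst, Fm.iff, v0, v1, v2, v3, s6] using ⟨h1, h2, h3⟩) rfl

theorem RichX.y4e (hG : RichX G) (h1 : Fm.iff Z O ∈ π) (h2 : imp H C ∈ π)
    (h3 : imp H (imp (Fm.and C W) O) ∈ π) (h4 : imp H (imp (neg W) S) ∈ π)
    (h5 : imp H (imp Z S) ∈ π) : RuleStep G π (imp H S) :=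
  hG.step ⟨[Fm.iff v1 v2, imp v0 v3, imp v0 (imp (Fm.and v3 v4) v2), imp v0 (imp (neg v4) w5),
      imp v0 (imp v1 w5)], imp v0 w5⟩ (by simp [XR]) H Z O C W S
    (by simpa [Fm.subst, Fm.iff, v0, v1, v2, v3, v4, w5, s6] using ⟨h1, h2, h3, h4, h5⟩) rfl

theorem RichX.y4o (hG : RichX G) (h1 : Fm.iff Z O ∈ π) (h2 : imp H C ∈ π)
    (h3 : imp H (imp (Fm.and C (neg W)) O) ∈ π) (h4 : imp H (imp W S) ∈ π)
    (h5 : imp H (imp Z S) ∈ π) : RuleStep G π (imp H S) :=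
  hG.step ⟨[Fm.iff v1 v2, imp v0 v3, imp v0 (imp (Fm.and v3 (neg v4)) v2), imp v0 (imp v4 w5),
      imp v0 (imp v1 w5)], imp v0 w5⟩ (by simp [XR]) H Z O C W S
    (by simpa [Fm.subst, Fm.iff, v0, v1, v2, v3, v4, w5, s6] using ⟨h1, h2, h3, h4, h5⟩) rfl

theorem RichX.y6 (hG : RichX G) (h1 : imp H (imp C D) ∈ π)
    (h2 : imp H (imp (Fm.and D L) S) ∈ π) :
    RuleStep G π (imp H (imp (Fm.and C L) (imp N S))) :=
  hG.step ⟨[imp v0 (imp v1 v2), imp v0 (imp (Fm.and v2 v3) v4)],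
      imp v0 (imp (Fm.and v1 v3) (imp w5 v4))⟩ (by simp [XR]) H C D L S N
    (by simpa [Fm.subst, v0, v1, v2, v3, v4, s6] using ⟨h1, h2⟩) rfl

theorem RichX.y7p (hG : RichX G) :
    RuleStep G π (imp H (imp (Fm.and C W) (imp (neg W) S))) :=
  hG.step ⟨[], imp v0 (imp (Fm.and v1 v2) (imp (neg v2) v3))⟩ (by simp [XR]) H C W S H H
    (by simp) rfl

theorem RichX.y7n (hG : RichX G) :
    RuleStep G π (imp H (imp (Fm.and C (neg W)) (imp W S))) :=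
  hG.step ⟨[], imp v0 (imp (Fm.and v1 (neg v2)) (imp v2 v3))⟩ (by simp [XR]) H C W S H H
    (by simp) rfl

theorem RichX.y8 (hG : RichX G) (h1 : imp H (imp (neg W) S) ∈ π) (h2 : imp H (imp W S) ∈ π) :
    RuleStep G π (imp H S) :=
  hG.step ⟨[imp v0 (imp (neg v1) v2), imp v0 (imp v1 v2)], imp v0 v2⟩ (by simp [XR])
    H W S H H H (by simpa [Fm.subst, v0, v1, v2, s6] using ⟨h1, h2⟩) rfl

theorem RichX.y9 (hG : RichX G) (h1 : imp H (imp D O) ∈ π) :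
    RuleStep G π (imp H (imp (Fm.and D L) O)) :=
  hG.step ⟨[imp v0 (imp v1 v2)], imp v0 (imp (Fm.and v1 v3) v2)⟩ (by simp [XR])
    H D O L H H (by simpa [Fm.subst, v0, v1, v2, s6] using h1) rfl

theorem RichX.i1 (hG : RichX G) : RuleStep G π (imp H (imp A (Fm.or A B))) :=
  hG.step ⟨[], imp v0 (imp v1 (Fm.or v1 v2))⟩ (by simp [XR]) H A B H H H (by simp) rfl

theorem RichX.i2 (hG : RichX G) (h1 : imp H (imp C B) ∈ π) :
    RuleStep G π (imp H (imp C (Fm.or A B))) :=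
  hG.step ⟨[imp v0 (imp v1 v2)], imp v0 (imp v1 (Fm.or v3 v2))⟩ (by simp [XR])
    H C B A H H (by simpa [Fm.subst, v0, v1, v2, s6] using h1) rfl

theorem RichX.z1 (hG : RichX G) (h1 : imp A (imp H O) ∈ π) (h2 : imp H P ∈ π)
    (h3 : imp H (imp D O) ∈ π) :
    RuleStep G π (imp (imp (Fm.and P (neg D)) A) (imp H O)) :=
  hG.step ⟨[imp v1 (imp v0 v2), imp v0 v3, imp v0 (imp v4 v2)],
      imp (imp (Fm.and v3 (neg v4)) v1) (imp v0 v2)⟩ (by simp [XR])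
    H A O P D H (by simpa [Fm.subst, v0, v1, v2, v3, v4, s6] using ⟨h1, h2, h3⟩) rfl

end steps

end Pool.Agent.H.MP_0447ec_lc.PS
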