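import Pool.Agent.H.MP_0447ec_lc.RF.Main
import Pool.Agent.H.MP_0447ec_lc.RF.CodeDefs
import Pool.Agent.H.MP_0447ec_lc.OH.Top

/-!
# The soundness of extended resolution has polynomial-time constructible proofs
-/

namespace Pool.Agent.H.MP_0447ec_lc.PS

open Fm Pool.Agent.H.MP_0447ec_lc.PT

theorem codeNums_eq (l : List ℕ) : codeNums l = (enc l).bits := by
  have h1 : ∀ n : ℕ, (List.replicate n [true, false]).flatten ++ [false] = (enc n).bits := by
    intro n
    induction n with
    | zero => rfl
    | succ n ih =>
      rw [List.replicate_succ, List.flatten_cons, enc_succ]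
      simp only [D.bits, ← ih]
      simp
  exact code_list h1 l

theorem reflection {F : List Rule} (hF : IsFrege F) :
    ∃ f : List ℕ → List Fm,
      Nonempty (Turing.TM2ComputableInPolyTime codeNums codeProof f) ∧
      ∀ n m K T : ℕ, PermProof F (Sound n m K T) (f [n, m, K, T]) := by
  obtain ⟨f, hf, h⟩ := soundness_of hF (nonconst_main hF 1)
  exact ⟨f, (tm2_iff_poly codeNums_eq codeProof_eq f).2 hf, h⟩

end Pool.Agent.H.MP_0447ec_lc.PS
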